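import Mathlib

/-!
Definitions for the perfect set property under I1.
-/

namespace Pool.Agent.I1PSP

open ZFSet

universe u

/-- First-order formulas of the language of set theory; variables are de Bruijn indices. -/
inductive Fml : Type
  | mem (i j : ℕ) : Fml
  | eq (i j : ℕ) : Fml
  | neg (φ : Fml) : Fml
  | and (φ ψ : Fml) : Fml
  | ex (φ : Fml) : Fml

/-- The sequence `x, v 0, v 1, ...`. -/
def cons (x : ZFSet.{u}) (v : ℕ → ZFSet.{u}) : ℕ → ZFSet.{u}
  | 0 => x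
  | n + 1 => v n

/-- Truth of a formula in the structure `(D, ∈)` under the assignment `v`. -/
def Sat (D : Set ZFSet.{u}) : Fml → (ℕ → ZFSet.{u}) → Prop
  | .mem i j, v => v i ∈ v j
  | .eq i j, v => v i = v j
  | .neg φ, v => ¬ Sat D φ v
  | .and φ ψ, v => Sat D φ v ∧ Sat D ψ v
  | .ex φ, v => ∃ x ∈ D, Sat D φ (cons x v)

/-- Formulas all of whose quantifiers are bounded. -/
inductive IsDelta0 : Fml → Prop
  | mem (i j : ℕ) : IsDelta0 (.mem i j)
  | eq (i j : ℕ) : IsDelta0 (.eq i j)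
  | neg {φ : Fml} : IsDelta0 φ → IsDelta0 (.neg φ)
  | and {φ ψ : Fml} : IsDelta0 φ → IsDelta0 ψ → IsDelta0 (.and φ ψ)
  | bex (i : ℕ) {φ : Fml} : IsDelta0 φ → IsDelta0 (.ex (.and (.mem 0 (i + 1)) φ))

/-- The class Sigma-1 of the Levy hierarchy. -/
inductive IsSigma1 : Fml → Prop
  | delta0 {φ : Fml} : IsDelta0 φ → IsSigma1 φ
  | ex {φ : Fml} : IsSigma1 φ → IsSigma1 (.ex φ)

/-- Second-order formulas: first-order variables `x i`, second-order variables `X i`. -/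
inductive Fml2 : Type
  | mem (i j : ℕ) : Fml2
  | eq (i j : ℕ) : Fml2
  | mem2 (i j : ℕ) : Fml2
  | neg (φ : Fml2) : Fml2
  | and (φ ψ : Fml2) : Fml2
  | ex1 (φ : Fml2) : Fml2
  | ex2 (φ : Fml2) : Fml2

/-- Truth of a second-order formula in `(V_ l, ∈)`: first-order quantifiers range over `V_ l`,
second-order quantifiers over `V_ (l + 1)`. -/
def Sat2 (l : Ordinal.{u}) : Fml2 → (ℕ → ZFSet.{u}) → (ℕ → ZFSet.{u}) → Prop
  | .mem i j, x, _ => x i ∈ x j
  | .eq i j, x, _ => x i = x j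
  | .mem2 i j, x, X => x i ∈ X j
  | .neg φ, x, X => ¬ Sat2 l φ x X
  | .and φ ψ, x, X => Sat2 l φ x X ∧ Sat2 l ψ x X
  | .ex1 φ, x, X => ∃ a ∈ vonNeumann l, Sat2 l φ (cons a x) X
  | .ex2 φ, x, X => ∃ A ∈ vonNeumann (l + 1), Sat2 l φ x (cons A X)

/-- `j` restricts to a non-trivial elementary embedding of `(V_ (l + 1), ∈)` into itself. -/
structure IsI1 (l : Ordinal.{u}) (j : ZFSet.{u} → ZFSet.{u}) : Prop where
  maps : ∀ x ∈ vonNeumann (l + 1), j x ∈ vonNeumann (l + 1)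
  elem : ∀ (φ : Fml) (v : ℕ → ZFSet.{u}), (∀ i, v i ∈ vonNeumann (l + 1)) →
    (Sat {x | x ∈ vonNeumann (l + 1)} φ v ↔
      Sat {x | x ∈ vonNeumann (l + 1)} φ fun i => j (v i))
  nontrivial : ∃ x ∈ vonNeumann (l + 1), j x ≠ x

/-- The topology on sequences of ordinals below `l`: basic open sets fix a finite initial part. -/
def seqTop (l : Ordinal.{u}) : TopologicalSpace (ℕ → Set.Iio l) :=
  TopologicalSpace.generateFrom
    {U | ∃ (n : ℕ) (s : ℕ → Set.Iio l), U = {x | ∀ i < n, x i = s i}}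

/-- The topology on subsets of `l`: basic open sets fix the intersection with some `η < l`. -/
def powTop (l : Ordinal.{u}) : TopologicalSpace {y : ZFSet.{u} // y ⊆ l.toZFSet} :=
  TopologicalSpace.generateFrom
    {U | ∃ η < l, ∃ a ⊆ η.toZFSet, U = {y | y.1 ∩ η.toZFSet = a}}

/-- `X` contains the range of a perfect embedding. -/
def HasPerfectEmbedding (l : Ordinal.{u}) (X : Set ZFSet.{u}) : Prop :=
  ∃ ι : (ℕ → Set.Iio l) → {y : ZFSet.{u} // y ⊆ l.toZFSet},
    @Topology.IsEmbedding _ _ (seqTop l) (powTop l) ι ∧ ∀ s, (ι s).1 ∈ X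

end Pool.Agent.I1PSP
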