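import Pool.Agent.Lib.MP_9c5ecf_lc.Perfect

-- part Pool.Agent.Lib.MP_9c5ecf_lc.Crit
section

/-!
The critical sequence of an I1-embedding.
-/

namespace Pool.Agent.I1PSP

open ZFSet Order

universe u

theorem mem_V_succ {l : Ordinal.{u}} {x : ZFSet.{u}} : x ∈ V_ (l + 1) ↔ x ⊆ V_ l := by
  rw [vonNeumann_add_one, mem_powerset]

theorem setOf_mem_V_succ (l : Ordinal.{u}) : {x : ZFSet.{u} | x ∈ V_ (l + 1)} = PP (V_ l) := by
  ext x; exact mem_V_succ

theorem IsI1.toElem {l : Ordinal.{u}} {j : ZFSet.{u} → ZFSet.{u}} (h : IsI1 l j) :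
    Elem (V_ l) j :=
  ⟨fun x hx => mem_V_succ.1 (h.maps x (mem_V_succ.2 hx)), fun φ v hv => by
    rw [← setOf_mem_V_succ]
    exact h.elem φ v fun i => mem_V_succ.2 (hv i)⟩

/-- `x` is a level of the cumulative hierarchy (in the manner of Scott and Potter). -/
def IsLevel (N x : ZFSet.{u}) : Prop :=
  ∃ h, h ⊆ N ∧ (∀ a, a ∈ h → ∀ y, y ⊆ N → (y ∈ a ↔ ∃ c, c ∈ h ∧ c ∈ a ∧ y ⊆ c)) ∧
    ∀ y, y ⊆ N → (y ∈ x ↔ ∃ c, c ∈ h ∧ y ⊆ c)

variable {N : ZFSet.{u}} {t s : (ℕ → ZFSet.{u}) → ZFSet.{u}}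

theorem Def.isLevel (hN : N.IsTransitive) (ht : DefT N t) : Def N fun v => IsLevel N (t v) := by
  refine Def.comp1 (R := IsLevel N) ?_ ht
  unfold IsLevel
  repeat' with_reducible first
    | exact DefT.var _ | apply Def.ex | apply Def.all | apply Def.ball hN | apply Def.bex hN
    | apply Def.and | apply Def.iff | apply Def.subset hN | apply Def.mem

theorem eq_V_rank (hN : N.IsTransitive) {x : ZFSet.{u}} (hx : x ⊆ N) {Q : ZFSet.{u} → Prop}
    (hQ : ∀ c, Q c → c ⊆ N ∧ c = V_ (rank c))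
    (h : ∀ y, y ⊆ N → (y ∈ x ↔ ∃ c, Q c ∧ y ⊆ c)) : x = V_ (rank x) := by
  refine subset_antisymm (subset_vonNeumann_self x) fun y hy => ?_
  obtain ⟨w, hw, hyw⟩ := lt_rank_iff.1 (mem_vonNeumann.1 hy)
  obtain ⟨c, hc, hwc⟩ := (h w (hN w (hx hw))).1 hw
  have h1 : y ⊆ c := by
    rw [(hQ c hc).2, subset_vonNeumann]
    exact hyw.trans (rank_mono hwc)
  exact (h y (h1.trans (hQ c hc).1)).2 ⟨c, hc, h1⟩

theorem IsLevel.eq (hN : N.IsTransitive) {x : ZFSet.{u}} (hx : x ⊆ N) (h : IsLevel N x) :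
    x = V_ (rank x) := by
  obtain ⟨h, h1, h2, h3⟩ := h
  have h4 : ∀ a : ZFSet.{u}, a ∈ h → a = V_ (rank a) := by
    intro a
    induction a using ZFSet.inductionOn with
    | _ a ih =>
      intro ha
      refine eq_V_rank hN (hN a (h1 ha)) (Q := fun c => c ∈ h ∧ c ∈ a)
        (fun c hc => ⟨hN c (h1 hc.1), ih c hc.2 hc.1⟩) fun y hy => ?_
      rw [h2 a ha y hy]
      simp only [and_assoc]
  exact eq_V_rank hN hx (fun c hc => ⟨hN c (h1 hc), h4 c hc⟩) h3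

theorem isLevel_V {l a : Ordinal.{u}} (h : a ≤ l) : IsLevel (V_ l) (V_ a) := by
  have hm : ∀ c, c ∈ ZFSet.sep (fun c => ∃ b < a, c = V_ b) (V_ l) ↔ ∃ b < a, c = V_ b := by
    intro c
    rw [mem_sep]
    exact ⟨fun H => H.2, fun ⟨b, hb, e⟩ => ⟨e ▸ vonNeumann_mem_of_lt (hb.trans_le h), b, hb, e⟩⟩
  refine ⟨ZFSet.sep (fun c => ∃ b < a, c = V_ b) (V_ l), sep_subset, fun x hx y _ => ?_,
    fun y _ => ?_⟩
  · obtain ⟨b, hb, rfl⟩ := (hm x).1 hx
    rw [mem_vonNeumann']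
    constructor
    · rintro ⟨c, hc, hy⟩
      exact ⟨V_ c, (hm _).2 ⟨c, hc.trans hb, rfl⟩, vonNeumann_mem_of_lt hc, hy⟩
    · rintro ⟨c, hc, h1, hy⟩
      obtain ⟨c, -, rfl⟩ := (hm c).1 hc
      exact ⟨c, vonNeumann_mem_vonNeumann_iff.1 h1, hy⟩
  · rw [mem_vonNeumann']
    constructor
    · rintro ⟨c, hc, hy⟩
      exact ⟨V_ c, (hm _).2 ⟨c, hc, rfl⟩, hy⟩
    · rintro ⟨c, hc, hy⟩
      obtain ⟨c, h1, rfl⟩ := (hm c).1 hc
      exact ⟨c, h1, hy⟩

/-- `x` is the power set of `y`. -/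
def IsPow (N x y : ZFSet.{u}) : Prop := ∀ w, w ⊆ N → (w ∈ x ↔ w ⊆ y)

theorem Def.isPow (hN : N.IsTransitive) (ht : DefT N t) (hs : DefT N s) :
    Def N fun v => IsPow N (t v) (s v) := by
  refine Def.comp2 (R := IsPow N) ?_ ht hs
  unfold IsPow
  repeat' with_reducible first
    | exact DefT.var _ | apply Def.all | apply Def.iff | apply Def.subset hN | apply Def.mem

theorem IsPow.eq (hN : N.IsTransitive) {x y : ZFSet.{u}} (hx : x ⊆ N) (hy : y ⊆ N)
    (h : IsPow N x y) : x = powerset y := by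
  ext w
  rw [mem_powerset]
  exact ⟨fun hw => (h w (hN w (hx hw))).1 hw, fun hw => (h w (hw.trans hy)).2 hw⟩

variable {l : Ordinal.{u}} {j : ZFSet.{u} → ZFSet.{u}}

theorem Elem.map_V (hj : Elem (V_ l) j) {a : Ordinal.{u}} (h : a ≤ l) :
    j (V_ a) = V_ (rank (j (V_ a))) := by
  have hN := isTransitive_vonNeumann l
  have h1 := vonNeumann_subset_of_le h
  exact IsLevel.eq hN (hj.maps _ h1)
    ((hj.iff1 (R := IsLevel (V_ l)) (Def.isLevel hN (DefT.var 0)) h1).1 (isLevel_V h))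

theorem Elem.fix_V (hj : Elem (V_ l) j) {k : Ordinal.{u}} (hk : k ≤ l + 1)
    (h : ∀ a < k, j (V_ a) = V_ a) (x : ZFSet.{u}) : x ∈ V_ k → j x = x := by
  have hN := isTransitive_vonNeumann l
  induction hr : rank x using Ordinal.induction generalizing x with
  | _ r ih =>
    subst hr
    intro hx
    rw [mem_vonNeumann] at hx
    have h1 : rank x ≤ l := Order.lt_add_one_iff.1 (hx.trans_le hk)
    have h2 : x ⊆ V_ l := subset_vonNeumann.2 h1
    have h3 : j x ⊆ V_ (rank x) := by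
      rw [← h _ hx, hj.subset_iff hN h2 (vonNeumann_subset_of_le h1)]
      exact subset_vonNeumann_self x
    have h4 : ∀ y, rank y < rank x → (y ∈ j x ↔ y ∈ x) := by
      intro y hy
      conv_lhs => rw [← ih _ hy y rfl (mem_vonNeumann.2 (hy.trans hx))]
      exact hj.mem_iff (subset_vonNeumann.2 (hy.le.trans h1)) h2
    ext y
    exact ⟨fun hy => (h4 y (mem_vonNeumann.1 (h3 hy))).1 hy,
      fun hy => (h4 y (rank_lt_of_mem hy)).2 hy⟩

/-- The critical sequence. -/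
theorem IsI1.exists_crit (hI : IsI1 l j) : ∃ lam : ℕ → Ordinal.{u}, StrictMono lam ∧
    (∀ n, lam n < l) ∧ (∀ n, j (V_ (lam n)) = V_ (lam (n + 1))) ∧
    (∀ x ∈ V_ (lam 0), j x = x) ∧ Ordinal.omega0 < lam 0 ∧ IsSuccLimit (lam 0) := by
  have hj := hI.toElem
  have hN := isTransitive_vonNeumann l
  let σ : Ordinal.{u} → Ordinal.{u} := fun a => rank (j (V_ a))
  have hσ : ∀ a ≤ l, j (V_ a) = V_ (σ a) := fun a ha => hj.map_V ha
  have hlt : ∀ a b, a < b → b ≤ l → σ a < σ b := by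
    intro a b hab hb
    rw [← vonNeumann_mem_vonNeumann_iff, ← hσ a (hab.le.trans hb), ← hσ b hb,
      hj.mem_iff (vonNeumann_subset_of_le (hab.le.trans hb)) (vonNeumann_subset_of_le hb)]
    exact vonNeumann_mem_of_lt hab
  have hle : ∀ a, a ≤ l → a ≤ σ a := by
    intro a
    induction a using Ordinal.induction with
    | _ a ih =>
      intro ha
      by_contra hc
      rw [not_le] at hc
      exact absurd (hlt _ _ hc ha) (not_lt.2 (ih _ hc (hc.le.trans ha)))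
  have hl : σ l = l := by simp only [σ]; rw [hj.map_univ hN, rank_vonNeumann]
  have hex : ∃ a, a ≤ l ∧ σ a ≠ a := by
    by_contra hc
    push Not at hc
    obtain ⟨x, hx, hx'⟩ := hI.nontrivial
    refine hx' (hj.fix_V le_rfl (fun a ha => ?_) x hx)
    have ha' := Order.lt_add_one_iff.1 ha
    rw [hσ a ha', hc a ha']
  obtain ⟨k, ⟨hk, hk'⟩, hmin⟩ := wellFounded_lt.has_min {a | a ≤ l ∧ σ a ≠ a} hex
  have hkl : k < l := lt_of_le_of_ne hk (by rintro rfl; exact hk' hl)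
  have hfixV : ∀ a < k, j (V_ a) = V_ a := by
    intro a ha
    have h1 : a ≤ l := ha.le.trans hk
    rw [hσ a h1]
    congr 1
    by_contra hc
    exact hmin a ⟨h1, hc⟩ ha
  have hfix := hj.fix_V (hk.trans le_self_add) hfixV
  have hkσ : k < σ k := lt_of_le_of_ne (hle k hk) (Ne.symm hk')
  let lam : ℕ → Ordinal.{u} := fun n => σ^[n] k
  have hs : ∀ n, lam (n + 1) = σ (lam n) := fun n => Function.iterate_succ_apply' _ _ _
  have h1 : ∀ n, lam n < l := by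
    intro n
    induction n with
    | zero => exact hkl
    | succ n ih => rw [hs, ← hl]; exact hlt _ _ ih le_rfl
  have h2 : ∀ n, lam n < lam (n + 1) := by
    intro n
    induction n with
    | zero => exact hkσ
    | succ n ih => rw [hs (n + 1)]; nth_rewrite 1 [hs n]; exact hlt _ _ ih (h1 _).le
  have hVk : V_ k ⊆ V_ l := vonNeumann_subset_of_le hk
  have hlim : IsSuccLimit k := by
    rcases Ordinal.zero_or_succ_or_isSuccLimit k with h | ⟨a, h⟩ | h
    · exfalso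
      apply hk'
      simp only [σ]
      rw [h, vonNeumann_zero, hj.map_empty hN, rank_empty]
    · exfalso
      apply hk'
      have ha : a < k := h ▸ lt_succ a
      have hVa : V_ a ⊆ V_ l := vonNeumann_subset_of_le (ha.le.trans hk)
      have h3 : IsPow (V_ l) (V_ k) (V_ a) := fun w _ => by
        rw [← h, vonNeumann_succ, mem_powerset]
      rw [hj.iff2 (R := IsPow (V_ l)) (Def.isPow hN (DefT.var 0) (DefT.var 1)) hVk hVa,
        hfixV a ha] at h3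
      simp only [σ]
      rw [h3.eq hN (hj.maps _ hVk) hVa, ← vonNeumann_succ, rank_vonNeumann, h]
    · exact h
  refine ⟨lam, strictMono_nat_of_lt_succ h2, h1, fun n => by rw [hs]; exact hσ _ (h1 n).le,
    hfix, lt_of_le_of_ne (Ordinal.omega0_le_of_isSuccLimit hlim) fun h => ?_, hlim⟩
  change Ordinal.omega0 = k at h
  have hdef : Def (V_ l) fun v => ∀ y, y ∈ v 0 → IsLevel (V_ l) y →
      y = ∅ ∨ ∃ c, c ∈ y ∧ IsPow (V_ l) y c := by
    repeat' with_reducible first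
      | exact DefT.var _ | exact DefT.empty hN | apply Def.ball hN | apply Def.bex hN
      | apply Def.imp | apply Def.or | apply Def.eq | apply Def.isLevel hN | apply Def.isPow hN
  have h3 := (hj.iff1 (R := fun x => ∀ y, y ∈ x → IsLevel (V_ l) y →
      y = ∅ ∨ ∃ c, c ∈ y ∧ IsPow (V_ l) y c) hdef hVk).1 (by
    intro y hy hy'
    have h4 := hy'.eq hN (hN y (hVk hy))
    rw [mem_vonNeumann, ← h, Ordinal.lt_omega0] at hy
    obtain ⟨n, hn⟩ := hy
    rw [hn] at h4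
    cases n with
    | zero => left; rw [h4]; simp
    | succ n =>
      right
      refine ⟨V_ n, by rw [h4]; exact vonNeumann_mem_of_lt (by simp), fun w _ => ?_⟩
      rw [h4, Nat.cast_succ, vonNeumann_add_one, mem_powerset])
  rcases h3 (V_ k) (by rw [hσ k hk]; exact vonNeumann_mem_of_lt hkσ) (isLevel_V hk) with
    h4 | ⟨c, hc, h4⟩
  · have := congrArg rank h4
    rw [rank_vonNeumann, rank_empty] at this
    exact hlim.ne_bot this
  · have := congrArg rank (h4.eq hN hVk (hN c (hVk hc)))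
    rw [rank_vonNeumann, rank_powerset] at this
    exact hlim.succ_ne _ this.symm

theorem pair_mem_V {d : Ordinal.{u}} (hd : ∀ a < d, succ a < d) {a b : ZFSet.{u}}
    (ha : a ∈ V_ d) (hb : b ∈ V_ d) : pair a b ∈ V_ d := by
  rw [mem_vonNeumann] at *
  rw [pair, rank_pair, rank_singleton, rank_pair]
  exact max_lt (hd _ (hd _ ha)) (hd _ (max_lt (hd _ ha) (hd _ hb)))

theorem snd_mem_of_pair_mem (hN : N.IsTransitive) {a b : ZFSet.{u}} (h : pair a b ∈ N) : b ∈ N :=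
  hN _ (hN _ h (show ({a, b} : ZFSet.{u}) ∈ pair a b by simp [pair])) (by simp)

theorem fst_mem_of_pair_mem (hN : N.IsTransitive) {a b : ZFSet.{u}} (h : pair a b ∈ N) : a ∈ N :=
  hN _ (hN _ h (show ({a, b} : ZFSet.{u}) ∈ pair a b by simp [pair])) (by simp)

end Pool.Agent.I1PSP
end

-- part Pool.Agent.Lib.MP_9c5ecf_lc.Kunen
section

/-!
The argument of Kunen: the critical sequence of an I1-embedding is cofinal.
-/

namespace Pool.Agent.I1PSP

open ZFSet Order Cardinal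

universe u v

theorem exists_inj_choice {I S : Type v} (C : I → Set S) (h : ∀ i, #I ≤ #(C i)) :
    ∃ s : I → S, Function.Injective s ∧ ∀ i, s i ∈ C i := by
  obtain ⟨lo, wo, hr⟩ := Cardinal.exists_ord_eq_type_lt I
  have key : ∀ (i : I) (f : ∀ i', i' < i → S), ∃ x ∈ C i, ∀ i' h, f i' h ≠ x := by
    intro i f
    by_contra hc
    push Not at hc
    have h1 : #(C i) ≤ #(Set.Iio i) := by
      refine (mk_le_mk_of_subset (t := Set.range fun a : Set.Iio i => f a.1 a.2) ?_).trans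
        mk_range_le
      intro x hx
      obtain ⟨i', h', e⟩ := hc x hx
      exact ⟨⟨i', h'⟩, e⟩
    exact absurd ((h i).trans h1) (not_le.2 (mk_Iio_lt i hr))
  choose G hG1 hG2 using key
  let s : I → S := wo.wf.fix G
  have hs : ∀ i, s i = G i fun i' _ => s i' := fun i => WellFounded.fix_eq _ _ _
  refine ⟨s, fun a b e => ?_, fun i => by rw [hs]; exact hG1 _ _⟩
  rcases lt_trichotomy a b with h' | h' | h'
  · exact absurd (e.trans (hs b)) (hG2 b (fun i' _ => s i') a h')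
  · exact h'
  · exact absurd (e.symm.trans (hs a)) (hG2 a (fun i' _ => s i') b h')

/-- The theorem of Erdos and Hajnal on omega-Jonsson functions, in the form needed here. -/
theorem exists_jonsson {D : ZFSet.{u}} {W : ℕ → ZFSet.{u}}
    (hpair : ∀ a ∈ D, ∀ b ∈ D, pair a b ∈ D) (hW : ∀ n y, y ⊆ W n → y ∈ D)
    (hcof : ∀ x ∈ D, ∃ n, x ∈ W n) :
    ∃ F : (ℕ → ZFSet.{u}) → ZFSet.{u}, (∀ t, F t ∈ D) ∧
      ∀ A, A ⊆ D → ∀ e : ZFSet.{u} → ZFSet.{u}, (∀ x ∈ D, e x ∈ A) →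
        (∀ x ∈ D, ∀ y ∈ D, e x = e y → x = y) → ∀ c ∈ D, ∃ t, (∀ n, t n ∈ A) ∧ F t = c := by
  classical
  let I := {q : ZFSet.{u} × ZFSet.{u} // q.1 ⊆ D ∧ q.2 ∈ D ∧ ∃ e : ZFSet.{u} → ZFSet.{u},
    (∀ x ∈ D, e x ∈ q.1) ∧ ∀ x ∈ D, ∀ y ∈ D, e x = e y → x = y}
  obtain ⟨s, hs1, hs2⟩ := exists_inj_choice (I := I) (S := ℕ → ZFSet.{u})
    (fun q => {t | ∀ n, t n ∈ q.1.1}) (by
      rintro ⟨q, h1, h2, e, h3, h4⟩
      have h5 : ∀ (q' : I) (n : ℕ), pair (q'.1.1 ∩ W n) q'.1.2 ∈ D := fun q' n =>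
        hpair _ (hW n _ (inter_sub_right _ _)) _ q'.2.2.1
      refine mk_le_of_injective (f := fun q' : I =>
        ⟨fun n => e (pair (q'.1.1 ∩ W n) q'.1.2), fun n => h3 _ (h5 q' n)⟩) fun a b hab => ?_
      have h6 : ∀ n, a.1.1 ∩ W n = b.1.1 ∩ W n ∧ a.1.2 = b.1.2 := fun n =>
        pair_inj.1 (h4 _ (h5 a n) _ (h5 b n) (congrFun (congrArg Subtype.val hab) n))
      refine Subtype.ext (Prod.ext ?_ (h6 0).2)
      ext x
      constructor
      · intro hx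
        obtain ⟨n, hn⟩ := hcof x (a.2.1 hx)
        exact (mem_inter.1 ((h6 n).1 ▸ mem_inter.2 ⟨hx, hn⟩)).1
      · intro hx
        obtain ⟨n, hn⟩ := hcof x (b.2.1 hx)
        exact (mem_inter.1 ((h6 n).1.symm ▸ mem_inter.2 ⟨hx, hn⟩)).1)
  refine ⟨fun t => if h : ∃ q, s q = t then h.choose.1.2 else ∅, fun t => ?_,
    fun A hA e h1 h2 c hc => ?_⟩
  · beta_reduce
    split_ifs with h
    · exact h.choose.2.2.1
    · exact hW 0 _ (ZFSet.empty_subset _)
  · let q : I := ⟨(A, c), hA, hc, e, h1, h2⟩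
    have h : ∃ q', s q' = s q := ⟨q, rfl⟩
    refine ⟨s q, hs2 q, ?_⟩
    simp only [dif_pos h]
    rw [hs1 h.choose_spec]

/-- The finite levels, used as indices. -/
noncomputable def ix (n : ℕ) : ZFSet.{u} := V_ (n : Ordinal.{u})

theorem ix_injective : Function.Injective ix.{u} := fun a b h => by
  have := congrArg rank h
  simpa [ix] using this

theorem ix_zero : ix.{u} 0 = ∅ := by simp [ix]

theorem ix_mem {d : Ordinal.{u}} (h : Ordinal.omega0 ≤ d) (n : ℕ) : ix n ∈ V_ d :=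
  vonNeumann_mem_of_lt ((Ordinal.natCast_lt_omega0 n).trans_le h)

/-- The graph of a sequence. -/
noncomputable def gr (f : ℕ → ZFSet.{u}) : ZFSet.{u} := ZFSet.range fun n => pair (ix n) (f n)

theorem mem_gr {f : ℕ → ZFSet.{u}} {p : ZFSet.{u}} : p ∈ gr f ↔ ∃ n, pair (ix n) (f n) = p :=
  mem_range

theorem pair_mem_gr {f : ℕ → ZFSet.{u}} {n : ℕ} {x : ZFSet.{u}} :
    pair (ix n) x ∈ gr f ↔ x = f n := by
  rw [mem_gr]
  constructor
  · rintro ⟨m, h⟩
    obtain ⟨h1, rfl⟩ := pair_inj.1 h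
    rw [ix_injective h1]
  · rintro rfl
    exact ⟨n, rfl⟩

/-- `g` relates every element of `a` to an element of `b`, in a one-to-one manner. -/
def InjRel (g a b : ZFSet.{u}) : Prop :=
  (∀ x, x ∈ a → ∃ y, y ∈ b ∧ pair x y ∈ g) ∧
    ∀ x, x ∈ a → ∀ x', x' ∈ a → ∀ y, y ∈ b → pair x y ∈ g → pair x' y ∈ g → x = x'

variable {N : ZFSet.{u}} {t s r : (ℕ → ZFSet.{u}) → ZFSet.{u}} {j : ZFSet.{u} → ZFSet.{u}}

theorem Def.injRel (hN : N.IsTransitive) (ht : DefT N t) (hs : DefT N s) (hr : DefT N r) :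
    Def N fun v => InjRel (t v) (s v) (r v) := by
  refine Def.comp3 (R := InjRel) ?_ ht hs hr
  unfold InjRel
  repeat' with_reducible first
    | exact DefT.var _ | apply Def.ball hN | apply Def.bex hN | apply Def.and | apply Def.imp
    | apply Def.eq | apply Def.pairMem hN

theorem InjRel.exists_fun {g a b : ZFSet.{u}} (h : InjRel g a b) :
    ∃ e : ZFSet.{u} → ZFSet.{u}, (∀ x ∈ a, e x ∈ b) ∧ ∀ x ∈ a, ∀ y ∈ a, e x = e y → x = y := by
  choose! e h1 h2 using h.1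
  exact ⟨e, h1, fun x hx y hy hxy => h.2 x hx y hy _ (h1 x hx) (h2 x hx) (hxy ▸ h2 y hy)⟩

theorem exists_injRel {D a b : ZFSet.{u}} (hpair : ∀ a ∈ D, ∀ b ∈ D, pair a b ∈ D)
    (ha : a ⊆ D) (hb : b ⊆ D) {e : ZFSet.{u} → ZFSet.{u}} (h1 : ∀ x ∈ a, e x ∈ b)
    (h2 : ∀ x ∈ a, ∀ y ∈ a, e x = e y → x = y) : ∃ g, g ⊆ D ∧ InjRel g a b := by
  refine ⟨ZFSet.sep (fun p => ∃ x ∈ a, p = pair x (e x)) D, sep_subset,
    fun x hx => ⟨e x, h1 x hx, mem_sep.2 ⟨hpair _ (ha hx) _ (hb (h1 x hx)), x, hx, rfl⟩⟩, ?_⟩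
  intro x hx x' hx' y _ h3 h4
  obtain ⟨-, w, -, h3⟩ := mem_sep.1 h3
  obtain ⟨-, w', -, h4⟩ := mem_sep.1 h4
  obtain ⟨rfl, h3⟩ := pair_inj.1 h3
  obtain ⟨rfl, h4⟩ := pair_inj.1 h4
  exact h2 _ hx _ hx' (h3.symm.trans h4)

theorem Elem.map_gr (hj : Elem N j) (hN : N.IsTransitive) {O : ZFSet.{u}} (hO : O ⊆ N)
    (hO' : ∀ a, a ∈ O ↔ ∃ n, ix n = a) (hjO : j O = O) (hix : ∀ n, j (ix n) = ix n)
    {f : ℕ → ZFSet.{u}} (hf : gr f ⊆ N) : j (gr f) = gr fun n => j (f n) := by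
  have h0 : ∀ n, pair (ix n) (f n) ∈ N := fun n => hf (pair_mem_gr.2 rfl)
  have h1 : ∀ n, pair (ix n) (j (f n)) ∈ j (gr f) := fun n => by
    rw [← hix n, hj.pair_mem_iff hN (hN _ (fst_mem_of_pair_mem hN (h0 n)))
      (hN _ (snd_mem_of_pair_mem hN (h0 n))) hf]
    exact pair_mem_gr.2 rfl
  have hdef : Def N fun v => (∀ p, p ∈ v 0 → ∃ a, a ∈ v 1 ∧ ∃ x, x ∈ N ∧ p = pair a x) ∧
      ∀ a, a ∈ v 1 → ∀ x, x ∈ N → ∀ y, y ∈ N → pair a x ∈ v 0 → pair a y ∈ v 0 → x = y := by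
    repeat' with_reducible first
      | exact DefT.var _ | exact DefT.univ hN | apply Def.ball hN | apply Def.bex hN
      | apply Def.and | apply Def.imp | apply Def.eqPair hN | apply Def.eq
      | apply Def.pairMem hN
  obtain ⟨h2, h3⟩ := (hj.iff2 (R := fun g O => (∀ p, p ∈ g → ∃ a, a ∈ O ∧ ∃ x, x ∈ N ∧
      p = pair a x) ∧ ∀ a, a ∈ O → ∀ x, x ∈ N → ∀ y, y ∈ N → pair a x ∈ g → pair a y ∈ g →
        x = y) hdef hf hO).1 (by
    constructor
    · intro p hp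
      obtain ⟨n, rfl⟩ := mem_gr.1 hp
      exact ⟨ix n, (hO' _).2 ⟨n, rfl⟩, f n, snd_mem_of_pair_mem hN (h0 n), rfl⟩
    · intro a ha x _ y _ hx hy
      obtain ⟨n, rfl⟩ := (hO' a).1 ha
      rw [pair_mem_gr.1 hx, pair_mem_gr.1 hy])
  rw [hjO] at h2 h3
  ext p
  constructor
  · intro hp
    obtain ⟨a, ha, x, hx, rfl⟩ := h2 p hp
    obtain ⟨n, rfl⟩ := (hO' a).1 ha
    exact pair_mem_gr.2 (h3 _ ha x hx _
      (hj.mem_univ hN (snd_mem_of_pair_mem hN (h0 n))) hp (h1 n))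
  · intro hp
    obtain ⟨n, rfl⟩ := mem_gr.1 hp
    exact h1 n

theorem kunen {l : Ordinal.{u}} (hj : Elem (V_ l) j) {lam : ℕ → Ordinal.{u}}
    (hmono : StrictMono lam) (hjV : ∀ n, j (V_ (lam n)) = V_ (lam (n + 1)))
    (hfix : ∀ x ∈ V_ (lam 0), j x = x) (hom : Ordinal.omega0 < lam 0) {a : Ordinal.{u}}
    (ha : a < l) : ∃ n, a < lam n := by
  have hN := isTransitive_vonNeumann l
  by_contra hc
  push Not at hc
  let d : Ordinal.{u} := ⨆ n, lam n
  have hd1 : ∀ n, lam n < d := fun n =>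
    (hmono (Nat.lt_succ_self n)).trans_le (Ordinal.le_iSup lam (n + 1))
  have hd2 : ∀ b < d, ∃ n, b < lam n := fun b hb => (Ordinal.lt_iSup_iff).1 hb
  have hdl : d < l := (Ordinal.iSup_le hc).trans_lt ha
  have hd3 : ∀ b < d, succ b < d := fun b hb => by
    obtain ⟨n, hn⟩ := hd2 b hb
    exact (succ_le_of_lt hn).trans_lt (hd1 n)
  have hpair : ∀ x ∈ V_ d, ∀ y ∈ V_ d, pair x y ∈ V_ d := fun x hx y hy => pair_mem_V hd3 hx hy
  have hDN : V_ d ⊆ V_ l := vonNeumann_subset_of_le hdl.le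
  have hPN : V_ (d + 1) ⊆ V_ l := vonNeumann_subset_of_le (add_one_le_of_lt hdl)
  have hix : ∀ n, ix n ∈ V_ d := ix_mem (hom.le.trans (hd1 0).le)
  have hcof : ∀ x ∈ V_ d, ∃ n, x ∈ V_ (lam n) := fun x hx => by
    simpa only [mem_vonNeumann] using hd2 _ (mem_vonNeumann.1 hx)
  have hgr : ∀ f : ℕ → ZFSet.{u}, (∀ n, f n ∈ V_ d) → gr f ⊆ V_ d := fun f hf p hp => by
    obtain ⟨n, rfl⟩ := mem_gr.1 hp
    exact hpair _ (hix n) _ (hf n)
  let O : ZFSet.{u} := ZFSet.range ix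
  have hO' : ∀ a, a ∈ O ↔ ∃ n, ix n = a := fun a => mem_range
  have hO1 : O ⊆ V_ Ordinal.omega0 := fun x hx => by
    obtain ⟨n, rfl⟩ := (hO' x).1 hx
    exact ix_mem le_rfl n
  have hO : O ⊆ V_ l := hO1.trans (vonNeumann_subset_of_le (hom.le.trans ((hd1 0).trans hdl).le))
  have hjO : j O = O := hfix O (mem_vonNeumann.2 ((subset_vonNeumann.1 hO1).trans_lt hom))
  have hjgr : ∀ f : ℕ → ZFSet.{u}, (∀ n, f n ∈ V_ d) → j (gr f) = gr fun n => j (f n) :=
    fun f hf => hj.map_gr hN hO hO' hjO (fun n => hfix _ (ix_mem hom.le n))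
      ((hgr f hf).trans hDN)
  have hjD : j (V_ d) = V_ d := by
    have hdef : DefT (V_ l) fun v => ZFSet.sep
        (fun x => ∃ a, a ∈ V_ l ∧ ∃ w, w ∈ V_ l ∧ pair a w ∈ v 0 ∧ x ∈ w) (V_ l) := by
      repeat' with_reducible first
        | exact DefT.var _ | exact DefT.univ hN | apply DefT.sep hN | apply Def.bex hN
        | apply Def.and | apply Def.pairMem hN | apply Def.mem
    have h1 : ∀ m : ℕ → ℕ, (∀ n, n ≤ m n) → ZFSet.sep (fun x => ∃ a, a ∈ V_ l ∧ ∃ w,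
        w ∈ V_ l ∧ pair a w ∈ gr (fun n => V_ (lam (m n))) ∧ x ∈ w) (V_ l) = V_ d := by
      intro m hm
      ext x
      rw [mem_sep]
      constructor
      · rintro ⟨-, a, -, w, -, h, hx⟩
        obtain ⟨n, h⟩ := mem_gr.1 h
        rw [← (pair_inj.1 h).2] at hx
        exact vonNeumann_subset_of_le (hd1 _).le hx
      · intro hx
        obtain ⟨n, hn⟩ := hcof x hx
        exact ⟨hDN hx, ix n, hDN (hix n), _, vonNeumann_mem_of_lt ((hd1 (m n)).trans hdl),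
          pair_mem_gr.2 rfl, vonNeumann_subset_of_le (hmono.monotone (hm n)) hn⟩
    have h2 : ∀ n, V_ (lam n) ∈ V_ d := fun n => vonNeumann_mem_of_lt (hd1 n)
    have h3 := hj.term hdef (v := fun _ => gr fun n => V_ (lam n)) fun _ => (hgr _ h2).trans hDN
    simp only [hjgr _ h2, hjV] at h3
    rwa [h1 (fun n => n) fun _ => le_rfl, h1 (fun n => n + 1) Nat.le_succ] at h3
  have hjm : ∀ x ∈ V_ d, j x ∈ V_ d := fun x hx => by
    rw [← hjD, hj.mem_iff (hN x (hDN hx)) hDN]; exact hx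
  obtain ⟨F, hF1, hF2⟩ := exists_jonsson (W := fun n => V_ (lam n)) hpair
    (fun n y hy => mem_vonNeumann.2 ((subset_vonNeumann.1 hy).trans_lt (hd1 n))) hcof
  have hc1 : ∀ t : ℕ → ZFSet.{u}, (∀ n, t n ∈ V_ d) → ∀ n, cons (F t) t n ∈ V_ d := by
    intro t ht n
    cases n with
    | zero => exact hF1 t
    | succ n => exact ht n
  let G : ZFSet.{u} :=
    ZFSet.sep (fun g => ∃ t, (∀ n, t n ∈ V_ d) ∧ g = gr (cons (F t) t)) (V_ l)
  have hG : ∀ t : ℕ → ZFSet.{u}, (∀ n, t n ∈ V_ d) → gr (cons (F t) t) ∈ G := fun t ht =>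
    mem_sep.2 ⟨hPN (mem_V_succ.2 (hgr _ (hc1 t ht))), t, ht, rfl⟩
  have hne : ∀ n, ix.{u} (n + 1) ≠ ∅ := fun n h =>
    Nat.succ_ne_zero n (ix_injective (h.trans ix_zero.symm))
  let R : ZFSet.{u} → ZFSet.{u} → ZFSet.{u} → Prop := fun G D O =>
    (∀ g, g ∈ G → ∀ g', g' ∈ G →
      (∀ a, a ∈ O → ∀ x, x ∈ D → ¬ a = ∅ → pair a x ∈ g → pair a x ∈ g') → g = g') ∧
    ∀ A, A ⊆ V_ l → A ⊆ D → (∃ e, e ⊆ V_ l ∧ InjRel e D A) → ∀ c, c ∈ D → ∃ g, g ∈ G ∧
      pair ∅ c ∈ g ∧ ∀ a, a ∈ O → ¬ a = ∅ → ∃ x, x ∈ A ∧ pair a x ∈ g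
  have hdef : Def (V_ l) fun v => R (v 0) (v 1) (v 2) := by
    simp only [R]
    repeat' with_reducible first
      | exact DefT.var _ | exact DefT.empty hN | apply Def.ball hN | apply Def.bex hN
      | apply Def.all | apply Def.ex | apply Def.and | apply Def.not | apply Def.imp
      | apply Def.eq | apply Def.pairMem hN | apply Def.subset hN | apply Def.injRel hN
  have hR : R G (V_ d) O := by
    constructor
    · intro g hg g' hg' h
      obtain ⟨-, t, ht, rfl⟩ := mem_sep.1 hg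
      obtain ⟨-, t', -, rfl⟩ := mem_sep.1 hg'
      have : t = t' := funext fun n => (pair_mem_gr (n := n + 1)).1
        (h _ ((hO' _).2 ⟨n + 1, rfl⟩) _ (ht n) (hne n) (pair_mem_gr.2 rfl))
      rw [this]
    · rintro A - hA ⟨e, -, he⟩ c hc
      obtain ⟨e, h1, h2⟩ := he.exists_fun
      obtain ⟨t, ht, rfl⟩ := hF2 A hA e h1 h2 c hc
      refine ⟨_, hG t fun n => hA (ht n), ix_zero ▸ pair_mem_gr.2 rfl, fun a ha ha' => ?_⟩
      obtain ⟨n, rfl⟩ := (hO' a).1 ha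
      cases n with
      | zero => exact absurd ix_zero ha'
      | succ n => exact ⟨t n, ht n, pair_mem_gr.2 rfl⟩
  rw [hj.iff3 hdef sep_subset hDN hO, hjD, hjO] at hR
  let A : ZFSet.{u} := ZFSet.sep (fun y => ∃ x ∈ V_ d, y = j x) (V_ d)
  have hinj : ∀ x ∈ V_ d, ∀ y ∈ V_ d, j x = j y → x = y := fun x hx y hy =>
    (hj.iff2 (R := fun a b => a = b) (Def.eq (DefT.var 0) (DefT.var 1)) (hN x (hDN hx))
      (hN y (hDN hy))).2
  obtain ⟨e, he1, he2⟩ := exists_injRel hpair (subset_refl _) (b := A) sep_subset (e := j)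
    (fun x hx => mem_sep.2 ⟨hjm x hx, x, hx, rfl⟩) hinj
  obtain ⟨g, hg, h1, h2⟩ := hR.2 A (sep_subset.trans hDN) sep_subset ⟨e, he1.trans hDN, he2⟩
    (V_ (lam 0)) (vonNeumann_mem_of_lt (hd1 0))
  have h3 : ∀ n, ∃ x ∈ V_ d, pair (ix (n + 1)) (j x) ∈ g := fun n => by
    obtain ⟨y, hy, h⟩ := h2 _ ((hO' _).2 ⟨n + 1, rfl⟩) (hne n)
    obtain ⟨-, x, hx, rfl⟩ := mem_sep.1 hy
    exact ⟨x, hx, h⟩
  choose t ht1 ht2 using h3
  have h4 : j (gr (cons (F t) t)) = g := by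
    refine hR.1 _ ((hj.mem_iff ((hgr _ (hc1 t ht1)).trans hDN) sep_subset).2 (hG t ht1)) g hg
      fun a ha x _ ha' h => ?_
    obtain ⟨n, rfl⟩ := (hO' a).1 ha
    rw [hjgr _ (hc1 t ht1), pair_mem_gr] at h
    cases n with
    | zero => exact absurd ix_zero ha'
    | succ n => rw [h]; exact ht2 n
  rw [← h4, hjgr _ (hc1 t ht1), ← ix_zero, pair_mem_gr] at h1
  change V_ (lam 0) = j (F t) at h1
  have h5 : F t ∈ V_ (lam 0) := by
    rw [← hj.mem_iff (hN _ (hDN (hF1 t))) (vonNeumann_subset_of_le ((hd1 0).trans hdl).le),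
      ← h1, hjV]
    exact vonNeumann_mem_of_lt (hmono Nat.zero_lt_one)
  rw [hfix _ h5] at h1
  rw [← h1] at h5
  exact mem_irrefl _ h5

end Pool.Agent.I1PSP
end

-- part Pool.Agent.Lib.MP_9c5ecf_lc.Main
section

/-!
The perfect set property for sets definable over `V_ (l + 1)`.
-/

namespace Pool.Agent.I1PSP

open ZFSet Order Cardinal

universe u

variable {l : Ordinal.{u}} {j : ZFSet.{u} → ZFSet.{u}} {lam : ℕ → Ordinal.{u}}

/-- The set of levels below `a`. -/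
noncomputable def lev (l a : Ordinal.{u}) : ZFSet.{u} := ZFSet.sep (IsLevel (V_ l)) (V_ a)

theorem mem_lev {a : Ordinal.{u}} (ha : a ≤ l) {x : ZFSet.{u}} :
    x ∈ lev l a ↔ ∃ b < a, x = V_ b := by
  have hN := isTransitive_vonNeumann l
  rw [lev, mem_sep]
  constructor
  · rintro ⟨h1, h2⟩
    exact ⟨rank x, mem_vonNeumann.1 h1, h2.eq hN (hN x (vonNeumann_subset_of_le ha h1))⟩
  · rintro ⟨b, hb, rfl⟩
    exact ⟨vonNeumann_mem_of_lt hb, isLevel_V (hb.le.trans ha)⟩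

theorem mk_V_le (hj : Elem (V_ l) j) (hmono : StrictMono lam) (hlt : ∀ n, lam n < l)
    (hjV : ∀ n, j (V_ (lam n)) = V_ (lam (n + 1))) (hfix : ∀ x ∈ V_ (lam 0), j x = x)
    (hlim : IsSuccLimit (lam 0)) (n : ℕ) :
    #{x : ZFSet.{u} | x ∈ V_ (lam n)} ≤ #(Set.Iio l) := by
  have hN := isTransitive_vonNeumann l
  have hVN : ∀ n, V_ (lam n) ⊆ V_ l := fun n => vonNeumann_subset_of_le (hlt n).le
  have hON : ∀ n, lev l (lam n) ⊆ V_ l := fun n => sep_subset.trans (hVN n)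
  have hjO : ∀ n, j (lev l (lam n)) = lev l (lam (n + 1)) := fun n => by
    have := hj.term (DefT.sep hN (R := fun x _ => IsLevel (V_ l) x) (DefT.var 0)
      (Def.isLevel hN (DefT.var 0))) (v := fun _ => V_ (lam n)) fun _ => hVN n
    rw [hjV] at this
    exact this
  have hpair : ∀ x ∈ V_ (lam 0), ∀ y ∈ V_ (lam 0), pair x y ∈ V_ (lam 0) :=
    fun x hx y hy => pair_mem_V (fun a ha => hlim.succ_lt ha) hx hy
  have hdef : Def (V_ l) fun v => ∀ a, a ∈ v 0 → ∃ g, g ⊆ V_ l ∧ InjRel g a (v 1) := by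
    repeat' with_reducible first
      | exact DefT.var _ | apply Def.ball hN | apply Def.ex | apply Def.injRel hN
  have hQ : ∀ n, ∀ a, a ∈ V_ (lam n) → ∃ g, g ⊆ V_ l ∧ InjRel g a (lev l (lam n)) := by
    intro n
    induction n with
    | succ n ih =>
      rw [← hjV, ← hjO]
      exact (hj.iff2 (R := fun W O => ∀ a, a ∈ W → ∃ g, g ⊆ V_ l ∧ InjRel g a O) hdef
        (hVN n) (hON n)).1 ih
    | zero =>
      intro a ha
      have ha' : a ⊆ V_ (lam 0) := isTransitive_vonNeumann _ a ha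
      have key : ∀ b c : ZFSet.{u}, b ⊆ V_ (lam 0) → c ⊆ V_ (lam 0) →
          #{x : ZFSet.{u} | x ∈ b} ≤ #{x : ZFSet.{u} | x ∈ c} →
            ∃ g, g ⊆ V_ (lam 0) ∧ InjRel g b c := by
        classical
        intro b c hb hc ⟨e⟩
        refine exists_injRel hpair hb hc (e := fun x => if h : x ∈ b then (e ⟨x, h⟩).1 else ∅)
          (fun x hx => ?_) fun x hx y hy h => ?_
        · simp only [dif_pos hx]
          exact (e ⟨x, hx⟩).2
        · simp only [dif_pos hx, dif_pos hy] at h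
          exact congrArg Subtype.val (e.injective (Subtype.ext h))
      rcases le_total #{x : ZFSet.{u} | x ∈ a} #{x : ZFSet.{u} | x ∈ lev l (lam 0)} with h | h
      · obtain ⟨g, h1, h2⟩ := key _ _ ha' sep_subset h
        exact ⟨g, h1.trans (hVN 0), h2⟩
      exfalso
      obtain ⟨g, h1, h2⟩ := key _ _ sep_subset ha' h
      have hg := h1.trans (hVN 0)
      have haN := ha'.trans (hVN 0)
      have h3 := (hj.iff3 (R := InjRel) (Def.injRel hN (DefT.var 0) (DefT.var 1) (DefT.var 2))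
        hg (hON 0) haN).1 h2
      rw [hjO, hfix a ha] at h3
      have h4 : V_ (lam 0) ∈ lev l (lam (0 + 1)) :=
        (mem_lev (hlt _).le).2 ⟨_, hmono (Nat.lt_succ_self 0), rfl⟩
      obtain ⟨y, hy, h5⟩ := h3.1 _ h4
      have hdef2 : Def (V_ l) fun v => ∃ x, x ∈ v 0 ∧ pair x (v 1) ∈ v 2 :=
        Def.bex hN (DefT.var 0) (Def.pairMem hN (DefT.var 3) (DefT.var 0) (DefT.var 2))
      obtain ⟨x, hx, h6⟩ := (hj.iff3 (R := fun O y g => ∃ x, x ∈ O ∧ pair x y ∈ g) hdef2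
        (hON 0) (hN y (haN hy)) hg).2 ⟨_, by rw [hjO]; exact h4, by rwa [hfix y (ha' hy)]⟩
      have hx' : x ∈ V_ (lam 0) := sep_subset hx
      have h7 := (hj.pair_mem_iff hN (hN x (hVN 0 hx')) (hN y (haN hy)) hg).2 h6
      rw [hfix x hx', hfix y (ha' hy)] at h7
      have h8 : x ∈ lev l (lam (0 + 1)) := by
        rw [← hjO, ← hfix x hx', hj.mem_iff (hN x (hVN 0 hx')) (hON 0)]
        exact hx
      rw [h3.2 x h8 _ h4 y hy h7 h5] at hx'
      exact mem_irrefl _ hx'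
  obtain ⟨g, -, hg⟩ := hQ (n + 1) _ (vonNeumann_mem_of_lt (hmono (Nat.lt_succ_self n)))
  obtain ⟨e, h1, h2⟩ := hg.exists_fun
  have h3 : ∀ x : {x : ZFSet.{u} | x ∈ V_ (lam n)}, ∃ b : Set.Iio l, e x = V_ b.1 := fun x => by
    obtain ⟨b, hb, h⟩ := (mem_lev (hlt _).le).1 (h1 x x.2)
    exact ⟨⟨b, hb.trans (hlt _)⟩, h⟩
  choose f hf using h3
  exact mk_le_of_injective (f := f) fun x y h =>
    Subtype.ext (h2 x x.2 y y.2 (by rw [hf, hf, h]))

theorem not_sm (hcof : ∀ a < l, ∃ n, a < lam n) (hom : Ordinal.omega0 < l)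
    (h : ∀ n, #{x : ZFSet.{u} | x ∈ V_ (lam n)} ≤ #(Set.Iio l)) {X : Set ZFSet.{u}}
    (hX : #(Set.Iio l) < #X) : ¬ Sm (V_ l) X := by
  rintro ⟨f, hf⟩
  have h1 : X ⊆ ⋃ n : ULift.{u + 1} ℕ, f '' {x : ZFSet.{u} | x ∈ V_ (lam n.down)} := by
    intro y hy
    obtain ⟨a, ha, e⟩ := hf y hy
    obtain ⟨n, hn⟩ := hcof _ (mem_vonNeumann.1 ha)
    exact Set.mem_iUnion.2 ⟨⟨n⟩, a, mem_vonNeumann.2 hn, e⟩
  have h2 : ℵ₀ ≤ #(Set.Iio l) := by
    rw [mk_Iio_ordinal, ← lift_aleph0.{u + 1, u}, lift_le, Ordinal.aleph0_le_card]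
    exact hom.le
  have h3 := mk_iUnion_le fun n : ULift.{u + 1} ℕ => f '' {x : ZFSet.{u} | x ∈ V_ (lam n.down)}
  have h4 : ⨆ n : ULift.{u + 1} ℕ, #(f '' {x : ZFSet.{u} | x ∈ V_ (lam n.down)}) ≤
      #(Set.Iio l) := ciSup_le' fun n => mk_image_le.trans (h n.down)
  have h5 : #(ULift.{u + 1} ℕ) ≤ #(Set.Iio l) := mk_le_aleph0.trans h2
  have h6 := h3.trans (mul_le_mul' h5 h4)
  rw [mul_eq_self h2] at h6
  exact absurd hX (not_lt.2 ((mk_le_mk_of_subset h1).trans h6))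

theorem inter_toZFSet {y : ZFSet.{u}} (hy : y ⊆ l.toZFSet) (a : Ordinal.{u}) :
    y ∩ a.toZFSet = y ∩ V_ a := by
  ext x
  rw [mem_inter, mem_inter]
  refine and_congr_right fun hx => ?_
  obtain ⟨b, -, rfl⟩ := Ordinal.mem_toZFSet_iff.1 (hy hx)
  rw [Ordinal.toZFSet_mem_toZFSet_iff, mem_vonNeumann, Ordinal.rank_toZFSet]

theorem isEmbedding_of {ι : (ℕ → Set.Iio l) → {y : ZFSet.{u} // y ⊆ l.toZFSet}}
    (h1 : ∀ a < l, ∃ n, ∀ s s', (∀ i < n, s' i = s i) →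
      (ι s').1 ∩ a.toZFSet = (ι s).1 ∩ a.toZFSet)
    (h2 : ∀ s n, ∃ a < l, ∀ s', (ι s').1 ∩ a.toZFSet = (ι s).1 ∩ a.toZFSet →
      ∀ i < n, s' i = s i) : @Topology.IsEmbedding _ _ (seqTop l) (powTop l) ι := by
  refine @Topology.IsEmbedding.mk _ _ (seqTop l) (powTop l) ι
    (@Topology.IsInducing.mk _ _ (seqTop l) (powTop l) ι (le_antisymm ?_ ?_)) fun s s' h => ?_
  · rw [powTop, induced_generateFrom_eq]
    refine le_generateFrom ?_
    rintro _ ⟨_, ⟨a, ha, b, -, rfl⟩, rfl⟩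
    obtain ⟨n, hn⟩ := h1 a ha
    let _ := seqTop l
    refine isOpen_iff_forall_mem_open.2 fun s hs => ⟨{x | ∀ i < n, x i = s i},
      fun s' hs' => (hn s s' hs').trans hs, ?_, fun _ _ => rfl⟩
    exact TopologicalSpace.isOpen_generateFrom_of_mem ⟨n, s, rfl⟩
  · refine le_generateFrom ?_
    rintro _ ⟨n, t, rfl⟩
    let _ := TopologicalSpace.induced ι (powTop l)
    refine isOpen_iff_forall_mem_open.2 fun s hs => ?_
    obtain ⟨a, ha, h⟩ := h2 s n
    refine ⟨ι ⁻¹' {y | y.1 ∩ a.toZFSet = (ι s).1 ∩ a.toZFSet},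
      fun s' hs' i hi => (h s' hs' i hi).trans (hs i hi), ⟨_, ?_, rfl⟩, rfl⟩
    exact TopologicalSpace.isOpen_generateFrom_of_mem ⟨a, ha, _, inter_sub_right _ _, rfl⟩
  · funext i
    obtain ⟨a, -, h3⟩ := h2 s' (i + 1)
    exact h3 s (by rw [h]) i (Nat.lt_succ_self i)

theorem IsI1.limit (hI : IsI1 l j) : Ordinal.omega0 < l ∧ ∀ a < l, succ a < l := by
  obtain ⟨lam, hmono, hlt, hjV, hfix, hom, -⟩ := hI.exists_crit
  refine ⟨hom.trans (hlt 0), fun a ha => ?_⟩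
  obtain ⟨n, hn⟩ := kunen hI.toElem hmono hjV hfix hom ha
  exact (succ_le_of_lt hn).trans_lt (hlt n)

theorem psp (hI : IsI1 l j) {P : (ℕ → ZFSet.{u}) → Prop} (hP : Def (V_ l) P)
    {z : ℕ → ZFSet.{u}} (hz : Val (V_ l) z) {X : Set ZFSet.{u}}
    (hX : ∀ y, y ∈ X ↔ y ⊆ l.toZFSet ∧ P (cons y z)) (hcard : #(Set.Iio l) < #X) :
    HasPerfectEmbedding l X := by
  obtain ⟨lam, hmono, hlt, hjV, hfix, hom, hlim⟩ := hI.exists_crit
  have hj := hI.toElem
  have hN := isTransitive_vonNeumann l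
  have hcof : ∀ a < l, ∃ n, a < lam n := fun a ha => kunen hj hmono hjV hfix hom ha
  have hl := hI.limit.2
  have hlN : l.toZFSet ⊆ V_ l := subset_vonNeumann.2 (Ordinal.rank_toZFSet l).le
  have hP' : Def (V_ l) fun w => w 0 ⊆ w 1 ∧ P (cons (w 0) fun i => w (i + 2)) := by
    refine (Def.subset hN (DefT.var 0) (DefT.var 1)).and
      ((hP.rename fun i => Nat.casesOn i 0 fun i => i + 2).congr fun v _ => ?_)
    have : (cons (v 0) fun i => v (i + 2)) = fun i => v (Nat.casesOn i 0 fun i => i + 2) := by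
      funext i; cases i <;> rfl
    rw [this]
  have hX' : ¬ Sm (V_ l) {y | y ⊆ V_ l ∧ y ⊆ l.toZFSet ∧ P (cons y z)} := fun h =>
    not_sm hcof hI.limit.1 (mk_V_le hj hmono hlt hjV hfix hlim) hcard
      (h.mono fun y hy => ⟨((hX y).1 hy).1.trans hlN, (hX y).1 hy⟩)
  obtain ⟨F, p, h1, h2, h3⟩ := core (W := fun n => V_ (lam n)) (idx := ix) hN
    (fun i => vonNeumann_mem_of_lt (hlt i))
    (fun i => vonNeumann_subset_of_le (hmono (Nat.lt_succ_self i)).le)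
    (fun x hx => by simpa only [mem_vonNeumann] using hcof _ (mem_vonNeumann.1 hx))
    (vonNeumann_mem_of_lt (hmono Nat.zero_lt_one)) (isTransitive_vonNeumann _)
    (fun a ha => by
      rw [mem_vonNeumann] at ha ⊢
      rw [rank_powerset]
      exact hlim.succ_lt ha)
    (vonNeumann_mem_of_lt hom) (ix_mem le_rfl) hj hjV hfix
    (fun a ha b hb => pair_mem_V hl ha hb) ix_injective
    (fun a ha b hb => mem_vonNeumann.2 ((rank_mono hb).trans_lt (mem_vonNeumann.1 ha)))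
    (fun a ha c hc => by
      obtain ⟨n, hn⟩ := hcof _ (mem_vonNeumann.1 ha)
      refine mem_vonNeumann.2 (lt_of_le_of_lt (subset_vonNeumann.1 fun q hq => ?_)
        (hl _ (hl _ (hlt n))))
      obtain ⟨i, x, hx, rfl⟩ := hc q hq
      have h4 : rank (ix.{u} i) < lam n :=
        mem_vonNeumann.1 (ix_mem (hom.le.trans (hmono.monotone (Nat.zero_le n))) i)
      have h5 : rank x < lam n := (rank_lt_of_mem hx).trans hn
      rw [mem_vonNeumann, pair, rank_pair, rank_singleton, rank_pair]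
      simp only [max_lt_iff, succ_lt_succ_iff]
      exact ⟨h4, h4, h5⟩)
    hP' (hz.cons hlN) hX' (fun t => V_ (lam ((Nat.unpair t).2 + 1)))
    fun t => vonNeumann_mem_of_lt (hlt _)
  let e : (ℕ → Set.Iio l) → ℕ → ZFSet.{u} := fun x t =>
    V_ (min (x (Nat.unpair t).1).1 (lam (Nat.unpair t).2))
  have he : ∀ x t, e x t ∈ V_ (lam ((Nat.unpair t).2 + 1)) := fun x t =>
    vonNeumann_mem_of_lt ((min_le_right _ _).trans_lt (hmono (Nat.lt_succ_self _)))
  have hF : ∀ x, F (e x) ⊆ l.toZFSet := fun x => (h2 _ (he x)).2.1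
  refine ⟨fun x => ⟨F (e x), hF x⟩, isEmbedding_of (fun a ha => ?_) fun s n => ?_,
    fun x => (hX _).2 (h2 _ (he x)).2⟩
  · obtain ⟨n, hn⟩ := hcof a ha
    refine ⟨n + 1, fun s s' h => ?_⟩
    have h4 := (h3 _ _ (he s') (he s) n).1 fun i hi => by
      simp only [e]
      rw [h _ (Nat.lt_succ_of_le ((Nat.unpair_left_le i).trans hi))]
    have h5 : V_ a ⊆ V_ (lam (p n)) :=
      vonNeumann_subset_of_le (hn.le.trans (hmono.monotone (h1 n)))
    change F (e s') ∩ _ = F (e s) ∩ _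
    rw [inter_toZFSet (hF s'), inter_toZFSet (hF s), ← inter_inter_of_subset _ h5, h4,
      inter_inter_of_subset _ h5]
  · obtain ⟨m, hm⟩ : ∃ m, ∀ i < n, (s i).1 < lam m := by
      induction n with
      | zero => exact ⟨0, fun i hi => absurd hi (Nat.not_lt_zero i)⟩
      | succ n ih =>
        obtain ⟨m, hm⟩ := ih
        obtain ⟨m', hm'⟩ := hcof _ (s n).2
        refine ⟨max m m', fun i hi => ?_⟩
        rcases Nat.lt_succ_iff_lt_or_eq.1 hi with h | rfl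
        · exact (hm i h).trans_le (hmono.monotone (le_max_left _ _))
        · exact hm'.trans_le (hmono.monotone (le_max_right _ _))
    refine ⟨lam (p (Nat.pair n m)), hlt _, fun s' h i hi => ?_⟩
    change F (e s') ∩ _ = F (e s) ∩ _ at h
    rw [inter_toZFSet (hF s'), inter_toZFSet (hF s)] at h
    have h4 := congrArg rank
      ((h3 _ _ (he s') (he s) _).2 h (Nat.pair i m) (Nat.pair_lt_pair_left m hi).le)
    simp only [e, Nat.unpair_pair, rank_vonNeumann] at h4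
    rw [min_eq_left (hm i hi).le] at h4
    refine Subtype.ext ?_
    rcases le_total (s' i).1 (lam m) with h5 | h5
    · rwa [min_eq_left h5] at h4
    · rw [min_eq_right h5] at h4
      exact absurd (hm i hi) (by rw [h4]; exact lt_irrefl _)

theorem def_sat2 (ψ : Fml2) : ∀ σ τ : ℕ → ℕ,
    Def (V_ l) fun w => Sat2 l ψ (fun i => w (σ i)) fun i => w (τ i) := by
  have hN := isTransitive_vonNeumann l
  have hc : ∀ (σ : ℕ → ℕ) (w : ℕ → ZFSet.{u}), (cons (w 0) fun i => w (σ i + 1)) =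
      fun i => w (Nat.casesOn i 0 fun i => σ i + 1) := by
    intro σ w; funext i; cases i <;> rfl
  induction ψ with
  | mem a b => intro σ τ; exact Def.mem (DefT.var _) (DefT.var _)
  | eq a b => intro σ τ; exact Def.eq (DefT.var _) (DefT.var _)
  | mem2 a b => intro σ τ; exact Def.mem (DefT.var _) (DefT.var _)
  | neg φ ih => intro σ τ; exact (ih σ τ).not
  | and φ ψ ih1 ih2 => intro σ τ; exact (ih1 σ τ).and (ih2 σ τ)
  | ex1 φ ih =>
    intro σ τ
    refine Def.bex hN (R := fun a w => Sat2 l φ (cons a fun i => w (σ i)) fun i => w (τ i))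
      (DefT.univ hN) ?_
    simp only [hc]
    exact ih _ _
  | ex2 φ ih =>
    intro σ τ
    refine (Def.ex (R := fun a w => Sat2 l φ (fun i => w (σ i)) (cons a fun i => w (τ i)))
      ?_).congr fun v _ => by simp only [Sat2, mem_V_succ]
    simp only [hc]
    exact ih _ _

theorem psp2 (hI : IsI1 l j) (ψ : Fml2) {a B : ℕ → ZFSet.{u}} (ha : ∀ i, a i ∈ V_ l)
    (hB : ∀ i, B i ∈ V_ (l + 1)) {X : Set ZFSet.{u}}
    (hX : ∀ y, y ∈ X ↔ y ⊆ l.toZFSet ∧ Sat2 l ψ a (cons y B)) (hcard : #(Set.Iio l) < #X) :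
    HasPerfectEmbedding l X := by
  refine psp hI (def_sat2 ψ (fun i => 2 * i + 1) fun i => 2 * i)
    (z := fun i => if i % 2 = 0 then a (i / 2) else B (i / 2)) (fun i => ?_) (fun y => ?_) hcard
  · beta_reduce
    split_ifs
    · exact isTransitive_vonNeumann l _ (ha _)
    · exact mem_V_succ.1 (hB _)
  · rw [hX]
    congr! 3 with i i
    · simp
    · cases i with
      | zero => rfl
      | succ i =>
        rw [show 2 * (i + 1) = 2 * i + 1 + 1 from rfl, cons_succ, cons_succ, if_neg (by omega)]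
        congr 1
        omega

end Pool.Agent.I1PSP
end
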