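import Pool.Agent.Lib.MP_9c5ecf_lc.Defs

-- part Pool.Agent.Lib.MP_9c5ecf_lc.Kit
section

/-!
Definability over the power set of a transitive set.
-/

namespace Pool.Agent.I1PSP

open ZFSet

universe u

@[simp] theorem cons_zero (x : ZFSet.{u}) (v : ℕ → ZFSet.{u}) : cons x v 0 = x := rfl
@[simp] theorem cons_succ (x : ZFSet.{u}) (v : ℕ → ZFSet.{u}) (n : ℕ) :
    cons x v (n + 1) = v n := rfl

/-- The power set of `N` as a class. -/
def PP (N : ZFSet.{u}) : Set ZFSet.{u} := {x | x ⊆ N}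

theorem mem_PP {N x : ZFSet.{u}} : x ∈ PP N ↔ x ⊆ N := Iff.rfl

/-- Assignments with values in the power set of `N`. -/
def Val (N : ZFSet.{u}) (v : ℕ → ZFSet.{u}) : Prop := ∀ i, v i ⊆ N

theorem Val.cons {N x : ZFSet.{u}} {v : ℕ → ZFSet.{u}} (hx : x ⊆ N) (hv : Val N v) :
    Val N (cons x v) := fun i => by
  cases i with
  | zero => exact hx
  | succ i => exact hv i

theorem val_empty (N : ZFSet.{u}) : Val N fun _ => ∅ := fun _ => ZFSet.empty_subset _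

/-- Renaming of variables. -/
def Fml.rename : Fml → (ℕ → ℕ) → Fml
  | .mem i j, σ => .mem (σ i) (σ j)
  | .eq i j, σ => .eq (σ i) (σ j)
  | .neg φ, σ => .neg (φ.rename σ)
  | .and φ ψ, σ => .and (φ.rename σ) (ψ.rename σ)
  | .ex φ, σ => .ex (φ.rename fun i => Nat.casesOn i 0 fun i => σ i + 1)

theorem sat_rename (D : Set ZFSet.{u}) (φ : Fml) : ∀ (σ : ℕ → ℕ) (v : ℕ → ZFSet.{u}),
    Sat D (φ.rename σ) v ↔ Sat D φ fun i => v (σ i) := by
  induction φ with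
  | mem i j => intro σ v; rfl
  | eq i j => intro σ v; rfl
  | neg φ ih => intro σ v; simp only [Fml.rename, Sat, ih]
  | and φ ψ ih1 ih2 => intro σ v; simp only [Fml.rename, Sat, ih1, ih2]
  | ex φ ih =>
    intro σ v
    simp only [Fml.rename, Sat, ih]
    refine exists_congr fun x => and_congr_right fun _ => ?_
    have : (fun i => cons x v (Nat.casesOn i 0 fun i => σ i + 1)) =
        cons x fun i => v (σ i) := by
      funext i; cases i <;> rfl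
    rw [this]

/-- Relations definable over the power set of `N`. -/
def Def (N : ZFSet.{u}) (P : (ℕ → ZFSet.{u}) → Prop) : Prop :=
  ∃ φ : Fml, ∀ v, Val N v → (P v ↔ Sat (PP N) φ v)

/-- Operations definable over the power set of `N`. -/
def DefT (N : ZFSet.{u}) (t : (ℕ → ZFSet.{u}) → ZFSet.{u}) : Prop :=
  (∀ v, Val N v → t v ⊆ N) ∧ Def N fun v => v 0 = t fun i => v (i + 1)

variable {N : ZFSet.{u}} {P Q : (ℕ → ZFSet.{u}) → Prop} {t s r : (ℕ → ZFSet.{u}) → ZFSet.{u}}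

theorem Def.congr (h : Def N P) (H : ∀ v, Val N v → (Q v ↔ P v)) : Def N Q := by
  obtain ⟨φ, hφ⟩ := h
  exact ⟨φ, fun v hv => (H v hv).trans (hφ v hv)⟩

theorem Def.rename (h : Def N P) (σ : ℕ → ℕ) : Def N fun v => P fun i => v (σ i) := by
  obtain ⟨φ, hφ⟩ := h
  exact ⟨φ.rename σ, fun v hv => by rw [sat_rename]; exact hφ _ fun i => hv _⟩

theorem Def.sat (φ : Fml) : Def N fun v => Sat (PP N) φ v := ⟨φ, fun _ _ => Iff.rfl⟩

theorem Def.not (h : Def N P) : Def N fun v => ¬ P v := by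
  obtain ⟨φ, hφ⟩ := h
  exact ⟨.neg φ, fun v hv => not_congr (hφ v hv)⟩

theorem Def.and (h : Def N P) (h' : Def N Q) : Def N fun v => P v ∧ Q v := by
  obtain ⟨φ, hφ⟩ := h
  obtain ⟨ψ, hψ⟩ := h'
  exact ⟨.and φ ψ, fun v hv => and_congr (hφ v hv) (hψ v hv)⟩

theorem Def.or (h : Def N P) (h' : Def N Q) : Def N fun v => P v ∨ Q v :=
  (h.not.and h'.not).not.congr fun v _ => by tauto

theorem Def.imp (h : Def N P) (h' : Def N Q) : Def N fun v => P v → Q v :=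
  (h.and h'.not).not.congr fun v _ => by tauto

theorem Def.iff (h : Def N P) (h' : Def N Q) : Def N fun v => P v ↔ Q v :=
  ((h.imp h').and (h'.imp h)).congr fun v _ => by tauto

theorem Def.ex {R : ZFSet.{u} → (ℕ → ZFSet.{u}) → Prop}
    (h : Def N fun w => R (w 0) fun i => w (i + 1)) : Def N fun v => ∃ x, x ⊆ N ∧ R x v := by
  obtain ⟨φ, hφ⟩ := h
  refine ⟨.ex φ, fun v hv => exists_congr fun x => and_congr_right fun hx => ?_⟩
  exact hφ (cons x v) (hv.cons hx)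

theorem Def.all {R : ZFSet.{u} → (ℕ → ZFSet.{u}) → Prop}
    (h : Def N fun w => R (w 0) fun i => w (i + 1)) : Def N fun v => ∀ x, x ⊆ N → R x v :=
  (Def.ex (R := fun x v => ¬ R x v) h.not).not.congr fun v _ => by push Not; rfl

theorem DefT.var (i : ℕ) : DefT N fun v => v i :=
  ⟨fun _ hv => hv i, .eq 0 (i + 1), fun _ _ => Iff.rfl⟩

theorem DefT.rename (h : DefT N t) (σ : ℕ → ℕ) : DefT N fun v => t fun i => v (σ i) :=
  ⟨fun v hv => h.1 _ fun _ => hv _,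
    h.2.rename fun i => Nat.casesOn i 0 fun i => σ i + 1⟩

theorem DefT.shift (h : DefT N t) : DefT N fun v => t fun i => v (i + 1) := h.rename _

theorem Def.subst {R : ZFSet.{u} → (ℕ → ZFSet.{u}) → Prop}
    (h : Def N fun w => R (w 0) fun i => w (i + 1)) (ht : DefT N t) :
    Def N fun v => R (t v) v :=
  (Def.ex (R := fun x v => x = t v ∧ R x v) (ht.2.and h)).congr fun v hv =>
    ⟨fun H => ⟨t v, ht.1 v hv, rfl, H⟩, fun ⟨_, _, h1, h2⟩ => h1 ▸ h2⟩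

theorem Def.comp1 {R : ZFSet.{u} → Prop} (h : Def N fun v => R (v 0)) (ht : DefT N t) :
    Def N fun v => R (t v) :=
  Def.subst (R := fun x _ => R x) h ht

theorem Def.comp2 {R : ZFSet.{u} → ZFSet.{u} → Prop} (h : Def N fun v => R (v 0) (v 1))
    (ht : DefT N t) (hs : DefT N s) : Def N fun v => R (t v) (s v) := by
  refine Def.subst (R := fun x v => R x (s v)) ?_ ht
  refine Def.subst (R := fun y w => R (w 0) y) ?_ hs.shift
  exact h.rename fun i => if i = 0 then 1 else 0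

theorem Def.comp3 {R : ZFSet.{u} → ZFSet.{u} → ZFSet.{u} → Prop}
    (h : Def N fun v => R (v 0) (v 1) (v 2))
    (ht : DefT N t) (hs : DefT N s) (hr : DefT N r) : Def N fun v => R (t v) (s v) (r v) := by
  refine Def.subst (R := fun x v => R x (s v) (r v)) ?_ ht
  refine Def.subst (R := fun y w => R (w 0) y (r fun i => w (i + 1))) ?_ hs.shift
  refine Def.subst (R := fun y w => R (w 1) (w 0) y) ?_ hr.shift.shift
  exact h.rename fun i => 2 - i

theorem Def.mem (ht : DefT N t) (hs : DefT N s) : Def N fun v => t v ∈ s v :=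
  Def.comp2 (R := fun a b => a ∈ b) ⟨.mem 0 1, fun _ _ => Iff.rfl⟩ ht hs

theorem Def.eq (ht : DefT N t) (hs : DefT N s) : Def N fun v => t v = s v :=
  Def.comp2 (R := fun a b => a = b) ⟨.eq 0 1, fun _ _ => Iff.rfl⟩ ht hs

theorem DefT.comp2 {f : ZFSet.{u} → ZFSet.{u} → ZFSet.{u}} (h : DefT N fun v => f (v 0) (v 1))
    (ht : DefT N t) (hs : DefT N s) : DefT N fun v => f (t v) (s v) :=
  ⟨fun v hv => h.1 (cons (t v) (cons (s v) v)) ((hv.cons (hs.1 v hv)).cons (ht.1 v hv)),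
    Def.comp3 (R := fun a b c => a = f b c) h.2 (DefT.var 0) ht.shift hs.shift⟩

theorem Def.bex (hN : N.IsTransitive) {R : ZFSet.{u} → (ℕ → ZFSet.{u}) → Prop} (ht : DefT N t)
    (h : Def N fun w => R (w 0) fun i => w (i + 1)) : Def N fun v => ∃ x, x ∈ t v ∧ R x v :=
  (Def.ex (R := fun x v => x ∈ t v ∧ R x v) ((Def.mem (DefT.var 0) ht.shift).and h)).congr
    fun v hv => exists_congr fun x =>
      ⟨fun H => ⟨hN x (ht.1 v hv H.1), H⟩, fun H => H.2⟩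

theorem Def.ball (hN : N.IsTransitive) {R : ZFSet.{u} → (ℕ → ZFSet.{u}) → Prop} (ht : DefT N t)
    (h : Def N fun w => R (w 0) fun i => w (i + 1)) : Def N fun v => ∀ x, x ∈ t v → R x v :=
  (Def.bex hN (R := fun x v => ¬ R x v) ht h.not).not.congr fun v _ => by push Not; rfl

theorem Def.subset (hN : N.IsTransitive) (ht : DefT N t) (hs : DefT N s) :
    Def N fun v => t v ⊆ s v :=
  (Def.ball hN (R := fun x v => x ∈ s v) ht (Def.mem (DefT.var 0) hs.shift)).congr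
    fun _ _ => Iff.rfl

theorem DefT.univ (hN : N.IsTransitive) : DefT N fun _ => N :=
  ⟨fun _ _ => subset_refl _,
    (Def.all (R := fun x v => x ⊆ v 0) (Def.subset hN (DefT.var 0) (DefT.var 1))).congr
      fun v hv => ⟨fun H _ hx => H ▸ hx, fun H => subset_antisymm (hv 0) (H N (subset_refl _))⟩⟩

theorem DefT.sep (hN : N.IsTransitive) {R : ZFSet.{u} → (ℕ → ZFSet.{u}) → Prop} (ht : DefT N t)
    (h : Def N fun w => R (w 0) fun i => w (i + 1)) :
    DefT N fun v => ZFSet.sep (fun x => R x v) (t v) := by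
  refine ⟨fun v hv => sep_subset.trans (ht.1 v hv), ?_⟩
  have h1 : Def N fun w => R (w 0) fun i => w (i + 1 + 1) :=
    h.rename fun i => Nat.casesOn i 0 fun i => i + 1 + 1
  refine (Def.all (R := fun x v => x ∈ v 0 ↔ x ∈ (t fun i => v (i + 1)) ∧ R x fun i => v (i + 1))
    ((Def.mem (DefT.var 0) (DefT.var 1)).iff
      ((Def.mem (DefT.var 0) ht.shift.shift).and h1))).congr fun v hv => ?_
  constructor
  · intro H x _
    rw [H, mem_sep]
  · intro H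
    ext x
    rw [mem_sep]
    constructor
    · intro hx
      exact (H x (hN x (hv 0 hx))).1 hx
    · intro hx
      exact (H x (hN x (ht.1 _ (fun i => hv (i + 1)) hx.1))).2 hx

theorem DefT.inter (hN : N.IsTransitive) (ht : DefT N t) (hs : DefT N s) :
    DefT N fun v => t v ∩ s v :=
  DefT.sep hN (R := fun x v => x ∈ s v) ht (Def.mem (DefT.var 0) hs.shift)

theorem DefT.empty (hN : N.IsTransitive) : DefT N fun _ => ∅ :=
  ⟨fun _ _ => ZFSet.empty_subset _,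
    (Def.ball hN (R := fun x _ => ¬ x = x) (DefT.var 0)
      (Def.eq (DefT.var 0) (DefT.var 0)).not).congr fun v _ => by simp [eq_empty]⟩

theorem eq_pair_iff {p a b : ZFSet.{u}} : p = pair a b ↔
    (∃ x ∈ p, a ∈ x ∧ ∀ y ∈ x, y = a) ∧ (∃ x ∈ p, a ∈ x ∧ b ∈ x ∧ ∀ y ∈ x, y = a ∨ y = b) ∧
      ∀ x ∈ p, (a ∈ x ∧ ∀ y ∈ x, y = a) ∨ (a ∈ x ∧ b ∈ x ∧ ∀ y ∈ x, y = a ∨ y = b) := by
  have h1 : ∀ x : ZFSet.{u}, (a ∈ x ∧ ∀ y ∈ x, y = a) ↔ x = {a} := fun x =>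
    ⟨fun h => by ext y; simp only [mem_singleton]; exact ⟨h.2 y, fun e => e ▸ h.1⟩,
      fun h => by simp [h]⟩
  have h2 : ∀ x : ZFSet.{u}, (a ∈ x ∧ b ∈ x ∧ ∀ y ∈ x, y = a ∨ y = b) ↔ x = {a, b} := fun x =>
    ⟨fun h => by
      ext y; simp only [mem_pair]
      exact ⟨h.2.2 y, fun e => e.elim (fun e => e ▸ h.1) fun e => e ▸ h.2.1⟩,
      fun h => by simp [h]⟩
  simp only [h1, h2]
  constructor
  · rintro rfl
    simp [pair]
  · rintro ⟨⟨x, hx, rfl⟩, ⟨y, hy, rfl⟩, h⟩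
    ext z
    simp only [pair, mem_pair]
    exact ⟨h z, fun e => e.elim (fun e => e ▸ hx) fun e => e ▸ hy⟩

theorem Def.eqPair (hN : N.IsTransitive) (ht : DefT N t) (hs : DefT N s) (hr : DefT N r) :
    Def N fun v => t v = pair (s v) (r v) := by
  refine Def.comp3 (R := fun p a b => p = pair a b) ?_ ht hs hr
  simp only [eq_pair_iff]
  repeat' with_reducible first
    | exact DefT.var _ | apply Def.mem | apply Def.eq | apply Def.and | apply Def.or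
    | apply Def.bex hN | apply Def.ball hN

theorem Def.pairMem (hN : N.IsTransitive) (ht : DefT N t) (hs : DefT N s) (hr : DefT N r) :
    Def N fun v => pair (s v) (r v) ∈ t v :=
  (Def.bex hN (R := fun p v => p = pair (s v) (r v)) ht
    (Def.eqPair hN (DefT.var 0) hs.shift hr.shift)).congr fun v _ => by simp

/-- Elementary maps of the power set of `N` into itself. -/
structure Elem (N : ZFSet.{u}) (j : ZFSet.{u} → ZFSet.{u}) : Prop where
  maps : ∀ x, x ⊆ N → j x ⊆ N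
  elem : ∀ (φ : Fml) (v : ℕ → ZFSet.{u}), Val N v →
    (Sat (PP N) φ v ↔ Sat (PP N) φ fun i => j (v i))

variable {j : ZFSet.{u} → ZFSet.{u}}

theorem Elem.iff (hj : Elem N j) (h : Def N P) {v : ℕ → ZFSet.{u}} (hv : Val N v) :
    P v ↔ P fun i => j (v i) := by
  obtain ⟨φ, hφ⟩ := h
  rw [hφ v hv, hφ _ fun i => hj.maps _ (hv i)]
  exact hj.elem φ v hv

theorem Elem.term (hj : Elem N j) (h : DefT N t) {v : ℕ → ZFSet.{u}} (hv : Val N v) :
    j (t v) = t fun i => j (v i) :=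
  (hj.iff h.2 (hv.cons (h.1 v hv))).1 rfl

theorem Elem.iff1 (hj : Elem N j) {R : ZFSet.{u} → Prop} (h : Def N fun v => R (v 0))
    {a : ZFSet.{u}} (ha : a ⊆ N) : R a ↔ R (j a) :=
  hj.iff h (v := fun _ => a) fun _ => ha

theorem Elem.iff2 (hj : Elem N j) {R : ZFSet.{u} → ZFSet.{u} → Prop}
    (h : Def N fun v => R (v 0) (v 1)) {a b : ZFSet.{u}} (ha : a ⊆ N) (hb : b ⊆ N) :
    R a b ↔ R (j a) (j b) :=
  hj.iff h (v := cons a fun _ => b) (Val.cons ha fun _ => hb)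

theorem Elem.iff3 (hj : Elem N j) {R : ZFSet.{u} → ZFSet.{u} → ZFSet.{u} → Prop}
    (h : Def N fun v => R (v 0) (v 1) (v 2)) {a b c : ZFSet.{u}} (ha : a ⊆ N) (hb : b ⊆ N)
    (hc : c ⊆ N) : R a b c ↔ R (j a) (j b) (j c) :=
  hj.iff h (v := cons a (cons b fun _ => c)) (Val.cons ha (Val.cons hb fun _ => hc))

theorem Elem.iff4 (hj : Elem N j) {R : ZFSet.{u} → ZFSet.{u} → ZFSet.{u} → ZFSet.{u} → Prop}
    (h : Def N fun v => R (v 0) (v 1) (v 2) (v 3)) {a b c d : ZFSet.{u}} (ha : a ⊆ N)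
    (hb : b ⊆ N) (hc : c ⊆ N) (hd : d ⊆ N) : R a b c d ↔ R (j a) (j b) (j c) (j d) :=
  hj.iff h (v := cons a (cons b (cons c fun _ => d)))
    (Val.cons ha (Val.cons hb (Val.cons hc fun _ => hd)))

theorem Elem.mem_iff (hj : Elem N j) {a b : ZFSet.{u}} (ha : a ⊆ N) (hb : b ⊆ N) :
    j a ∈ j b ↔ a ∈ b :=
  (hj.iff2 (R := fun a b => a ∈ b) (Def.mem (DefT.var 0) (DefT.var 1)) ha hb).symm

theorem Elem.map_univ (hj : Elem N j) (hN : N.IsTransitive) : j N = N :=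
  hj.term (DefT.univ hN) (val_empty N)

theorem Elem.map_empty (hj : Elem N j) (hN : N.IsTransitive) : j ∅ = ∅ :=
  hj.term (DefT.empty hN) (val_empty N)

theorem Elem.mem_univ (hj : Elem N j) (hN : N.IsTransitive) {a : ZFSet.{u}} (ha : a ∈ N) :
    j a ∈ N := by
  have := (hj.mem_iff (hN a ha) (subset_refl N)).2 ha
  rwa [hj.map_univ hN] at this

theorem Elem.subset_iff (hj : Elem N j) (hN : N.IsTransitive) {a b : ZFSet.{u}} (ha : a ⊆ N)
    (hb : b ⊆ N) : j a ⊆ j b ↔ a ⊆ b :=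
  (hj.iff2 (R := fun a b => a ⊆ b) (Def.subset hN (DefT.var 0) (DefT.var 1)) ha hb).symm

theorem Elem.pair_mem_iff (hj : Elem N j) (hN : N.IsTransitive) {a b c : ZFSet.{u}} (ha : a ⊆ N)
    (hb : b ⊆ N) (hc : c ⊆ N) : pair (j a) (j b) ∈ j c ↔ pair a b ∈ c :=
  (hj.iff3 (R := fun a b c => pair a b ∈ c)
    (Def.pairMem hN (DefT.var 2) (DefT.var 0) (DefT.var 1)) ha hb hc).symm

theorem Elem.inter (hj : Elem N j) (hN : N.IsTransitive) {a b : ZFSet.{u}} (ha : a ⊆ N)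
    (hb : b ⊆ N) : j (a ∩ b) = j a ∩ j b :=
  hj.term (DefT.inter hN (DefT.var 0) (DefT.var 1)) (v := cons a fun _ => b)
    (Val.cons ha fun _ => hb)

end Pool.Agent.I1PSP
end

-- part Pool.Agent.Lib.MP_9c5ecf_lc.Roots
section

/-!
The iterated root property (in the spirit of the square-root lemma of Martin and Laver).
-/

namespace Pool.Agent.I1PSP

open ZFSet

universe u

/-- The section of `A` at `a`. -/
def sec (N A a : ZFSet.{u}) : ZFSet.{u} := ZFSet.sep (fun x => pair a x ∈ A) N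

/-- The map on subsets of `N` coded by the set of pairs `G`. -/
def ap (N G A : ZFSet.{u}) : ZFSet.{u} :=
  ZFSet.sep (fun x => ∃ a, a ∈ N ∧ ∃ w, w ∈ N ∧ pair (A ∩ a) w ∈ G ∧ x ∈ w) N

theorem mem_sec {N A a x : ZFSet.{u}} : x ∈ sec N A a ↔ x ∈ N ∧ pair a x ∈ A := mem_sep

theorem sec_subset {N A a : ZFSet.{u}} : sec N A a ⊆ N := sep_subset

theorem ap_subset {N G A : ZFSet.{u}} : ap N G A ⊆ N := sep_subset

variable {N : ZFSet.{u}} {t s r : (ℕ → ZFSet.{u}) → ZFSet.{u}}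

theorem DefT.sec (hN : N.IsTransitive) (ht : DefT N t) (hs : DefT N s) :
    DefT N fun v => sec N (t v) (s v) := by
  refine DefT.comp2 (f := I1PSP.sec N) ?_ ht hs
  unfold I1PSP.sec
  repeat' with_reducible first
    | exact DefT.var _ | exact DefT.univ hN | apply DefT.sep hN | apply Def.pairMem hN

theorem DefT.ap (hN : N.IsTransitive) (ht : DefT N t) (hs : DefT N s) :
    DefT N fun v => ap N (t v) (s v) := by
  refine DefT.comp2 (f := I1PSP.ap N) ?_ ht hs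
  unfold I1PSP.ap
  repeat' with_reducible first
    | exact DefT.var _ | exact DefT.univ hN | apply DefT.sep hN | apply Def.pairMem hN
    | apply Def.bex hN | apply Def.and | apply Def.mem | apply DefT.inter hN

/-- The basic preservation properties. -/
structure Base (N : ZFSet.{u}) (k : ZFSet.{u} → ZFSet.{u}) : Prop where
  maps : ∀ A, A ⊆ N → k A ⊆ N
  mem_iff : ∀ A, A ⊆ N → ∀ B, B ⊆ N → (k A ∈ k B ↔ A ∈ B)
  inter : ∀ A, A ⊆ N → ∀ B, B ⊆ N → k (A ∩ B) = k A ∩ k B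
  sec : ∀ A, A ⊆ N → ∀ B, B ⊆ N → k (sec N A B) = sec N (k A) (k B)

theorem Base.inj (hN : N.IsTransitive) {k : ZFSet.{u} → ZFSet.{u}} (h : Base N k)
    {A B : ZFSet.{u}} (hA : A ⊆ N) (hB : B ⊆ N) (e : k A = k B) : A = B := by
  ext x
  constructor
  · intro hx
    rw [← h.mem_iff x (hN x (hA hx)) B hB, ← e, h.mem_iff x (hN x (hA hx)) A hA]
    exact hx
  · intro hx
    rw [← h.mem_iff x (hN x (hB hx)) A hA, e, h.mem_iff x (hN x (hB hx)) B hB]
    exact hx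

/-- The coded form of `Base`. -/
def RC0 (N G : ZFSet.{u}) : Prop :=
  ∀ A, A ⊆ N → ∀ B, B ⊆ N → (ap N G A ∈ ap N G B ↔ A ∈ B) ∧
    ap N G (A ∩ B) = ap N G A ∩ ap N G B ∧ ap N G (sec N A B) = sec N (ap N G A) (ap N G B)

/-- The coded form of the root hierarchy. -/
def RC (N : ZFSet.{u}) : ℕ → ZFSet.{u} → Prop
  | 0, G => RC0 N G
  | m + 1, G => RC0 N G ∧ ∀ A, A ⊆ N → ∀ B, B ⊆ N → ∀ b, b ⊆ N → ap N G b = b →
      (∀ a, a ∈ b → ap N G a = a) → ∃ G', G' ⊆ N ∧ RC N m G' ∧ ap N G' A = ap N G A ∧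
        (∃ B', B' ⊆ N ∧ ap N G' B' = B) ∧ ∀ a, a ∈ b → ap N G' a = a

theorem def_RC_zero (hN : N.IsTransitive) : Def N fun v => RC0 N (v 0) := by
  unfold RC0
  repeat' with_reducible first
    | exact DefT.var _ | apply Def.all | apply Def.and | apply Def.iff | apply Def.mem
    | apply Def.eq | apply DefT.inter hN | apply DefT.sec hN | apply DefT.ap hN

theorem def_RC (hN : N.IsTransitive) (m : ℕ) : Def N fun v => RC N m (v 0) := by
  induction m with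
  | zero => exact def_RC_zero hN
  | succ m ih =>
    unfold RC
    refine (def_RC_zero hN).and ?_
    repeat' with_reducible first
      | exact DefT.var _ | exact ih | apply Def.all | apply Def.ball hN | apply Def.ex
      | apply Def.and | apply Def.imp | apply Def.eq | apply DefT.ap hN

/-- The code of the restriction of `j` to `N`. -/
def graph (N : ZFSet.{u}) (j : ZFSet.{u} → ZFSet.{u}) : ZFSet.{u} :=
  ZFSet.sep (fun p => ∃ a ∈ N, p = pair a (j a)) N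

variable {j : ZFSet.{u} → ZFSet.{u}}

theorem ap_graph (hN : N.IsTransitive) (hj : Elem N j)
    (hpair : ∀ a ∈ N, ∀ b ∈ N, pair a b ∈ N) (hsub : ∀ a ∈ N, ∀ b, b ⊆ a → b ∈ N)
    (hcof : ∀ x ∈ N, ∃ a ∈ N, x ∈ j a) {A : ZFSet.{u}} (hA : A ⊆ N) :
    ap N (graph N j) A = j A := by
  have hi : ∀ a : ZFSet.{u}, A ∩ a ⊆ a := fun a x hx => (mem_inter.1 hx).2
  ext x
  simp only [ap, graph, mem_sep]
  constructor
  · rintro ⟨-, a, ha, w, -, ⟨-, a', -, h⟩, hx⟩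
    obtain ⟨rfl, rfl⟩ := pair_inj.1 h
    rw [hj.inter hN hA (hN a ha), mem_inter] at hx
    exact hx.1
  · intro hx
    have hxN : x ∈ N := hj.maps A hA hx
    obtain ⟨a, ha, hxa⟩ := hcof x hxN
    have h1 : A ∩ a ∈ N := hsub a ha _ (hi a)
    have h2 := hj.mem_univ hN h1
    refine ⟨hxN, a, ha, j (A ∩ a), h2, ⟨hpair _ h1 _ h2, _, h1, rfl⟩, ?_⟩
    rw [hj.inter hN hA (hN a ha), mem_inter]
    exact ⟨hx, hxa⟩

theorem rc_graph (hN : N.IsTransitive) (hj : Elem N j)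
    (hpair : ∀ a ∈ N, ∀ b ∈ N, pair a b ∈ N) (hsub : ∀ a ∈ N, ∀ b, b ⊆ a → b ∈ N)
    (hcof : ∀ x ∈ N, ∃ a ∈ N, x ∈ j a) (m : ℕ) : RC N m (graph N j) := by
  have hap : ∀ {A}, A ⊆ N → ap N (graph N j) A = j A := fun hA =>
    ap_graph hN hj hpair hsub hcof hA
  have h0 : RC0 N (graph N j) := by
    intro A hA B hB
    have hAB : A ∩ B ⊆ N := fun x hx => hA (mem_inter.1 hx).1
    rw [hap hA, hap hB, hap hAB, hap sec_subset]
    exact ⟨hj.mem_iff hA hB, hj.inter hN hA hB,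
      hj.term (DefT.sec hN (DefT.var 0) (DefT.var 1)) (v := cons A fun _ => B)
        (Val.cons hA fun _ => hB)⟩
  induction m with
  | zero => exact h0
  | succ m ih =>
    refine ⟨h0, fun A hA B hB b hb h1 h2 => ?_⟩
    have hG : graph N j ⊆ N := sep_subset
    have hdef : Def N fun v => ∃ G', G' ⊆ N ∧ RC N m G' ∧ ap N G' (v 1) = ap N (v 0) (v 1) ∧
        (∃ B', B' ⊆ N ∧ ap N G' B' = v 2) ∧ ∀ a, a ∈ v 3 → ap N G' a = a := by
      repeat' with_reducible first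
        | exact DefT.var _ | exact def_RC hN m | apply Def.ball hN | apply Def.ex
        | apply Def.and | apply Def.eq | apply DefT.ap hN
    refine (hj.iff4 (R := fun G A B b => ∃ G', G' ⊆ N ∧ RC N m G' ∧ ap N G' A = ap N G A ∧
        (∃ B', B' ⊆ N ∧ ap N G' B' = B) ∧ ∀ a, a ∈ b → ap N G' a = a) hdef hG hA hB hb).2 ?_
    refine ⟨graph N j, hG, ih, ?_, ⟨B, hB, hap hB⟩, ?_⟩
    · have := hj.term (DefT.ap hN (DefT.var 0) (DefT.var 1)) (v := cons (graph N j) fun _ => A)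
        (Val.cons hG fun _ => hA)
      simp only [cons_zero, cons_succ] at this
      rw [hap (hj.maps A hA), ← this, hap hA]
    · rw [hap hb] at h1
      rw [h1]
      exact h2

/-- The root hierarchy for functions; `idx` is a sequence of indices used for coding. -/
def RF (N : ZFSet.{u}) (idx : ℕ → ZFSet.{u}) : ℕ → (ZFSet.{u} → ZFSet.{u}) → Prop
  | 0, k => Base N k
  | m + 1, k => Base N k ∧ ∀ A B : ℕ → ZFSet.{u}, Val N A → Val N B → ∀ b, b ⊆ N →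
      (∀ i, idx i ∈ b) → k b = b → (∀ a ∈ b, k a = a) →
      ∃ k', RF N idx m k' ∧ (∀ i, k' (A i) = k (A i)) ∧
        (∀ i, ∃ B', B' ⊆ N ∧ k' B' = B i) ∧ ∀ a ∈ b, k' a = a

variable {idx : ℕ → ZFSet.{u}}

theorem RF.base {m : ℕ} {k : ZFSet.{u} → ZFSet.{u}} (h : RF N idx m k) : Base N k := by
  cases m with
  | zero => exact h
  | succ m => exact h.1

theorem RF.mono {m : ℕ} : ∀ {k : ZFSet.{u} → ZFSet.{u}}, RF N idx (m + 1) k → RF N idx m k := by
  induction m with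
  | zero => exact fun h => h.1
  | succ m ih =>
    intro k h
    refine ⟨h.1, fun A B hA hB b hb h1 h2 h3 => ?_⟩
    obtain ⟨k', h4, h5⟩ := h.2 A B hA hB b hb h1 h2 h3
    exact ⟨k', ih h4, h5⟩

/-- A set whose sections at the points `a i` are the sets `A i`. -/
theorem exists_code {ι : Type*} (hpair : ∀ a ∈ N, ∀ b ∈ N, pair a b ∈ N) {a : ι → ZFSet.{u}}
    (ha : Function.Injective a) (haN : ∀ i, a i ∈ N) (A : ι → ZFSet.{u}) (hA : ∀ i, A i ⊆ N) :
    ∃ C, C ⊆ N ∧ ∀ i, sec N C (a i) = A i := by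
  refine ⟨ZFSet.sep (fun p => ∃ i, ∃ x ∈ A i, p = pair (a i) x) N, sep_subset, fun i => ?_⟩
  ext x
  rw [mem_sec, mem_sep]
  constructor
  · rintro ⟨-, -, i', x', hx', h⟩
    obtain ⟨h1, rfl⟩ := pair_inj.1 h
    rw [ha h1]
    exact hx'
  · intro hx
    exact ⟨hA i hx, hpair _ (haN i) _ (hA i hx), i, x, hx, rfl⟩

theorem rf_of_rc (hN : N.IsTransitive) (hpair : ∀ a ∈ N, ∀ b ∈ N, pair a b ∈ N)
    (hidx : Function.Injective idx) (m : ℕ) :
    ∀ (G : ZFSet.{u}) (k : ZFSet.{u} → ZFSet.{u}), RC N m G → (∀ A, A ⊆ N → k A = ap N G A) →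
      RF N idx m k := by
  have h0 : ∀ (G : ZFSet.{u}) (k : ZFSet.{u} → ZFSet.{u}), RC0 N G →
      (∀ A, A ⊆ N → k A = ap N G A) → Base N k := by
    intro G k hG hk
    refine ⟨fun A hA => by rw [hk A hA]; exact ap_subset, fun A hA B hB => ?_,
      fun A hA B hB => ?_, fun A hA B hB => ?_⟩
    · rw [hk A hA, hk B hB]; exact (hG A hA B hB).1
    · rw [hk A hA, hk B hB, hk _ fun x hx => hA (mem_inter.1 hx).1]; exact (hG A hA B hB).2.1
    · rw [hk A hA, hk B hB, hk _ sec_subset]; exact (hG A hA B hB).2.2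
  induction m with
  | zero => exact h0
  | succ m ih =>
    intro G k hG hk
    have hb := h0 G k hG.1 hk
    refine ⟨hb, fun A B hA hB b hbN h1 h2 h3 => ?_⟩
    have hiN : ∀ i, idx i ∈ N := fun i => hbN (h1 i)
    obtain ⟨A', hA', hA''⟩ := exists_code hpair hidx hiN A hA
    obtain ⟨B', hB', hB''⟩ := exists_code hpair hidx hiN B hB
    obtain ⟨G', -, hG', h4, ⟨C, hC, h5⟩, h6⟩ := hG.2 A' hA' B' hB' b hbN (by rw [← hk b hbN, h2])
      fun a ha => by rw [← hk a (hN a (hbN ha)), h3 a ha]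
    have hk' := ih G' (ap N G') hG' fun _ _ => rfl
    refine ⟨ap N G', hk', fun i => ?_, fun i => ⟨sec N C (idx i), sec_subset, ?_⟩, h6⟩
    · rw [← hA'' i, hk'.base.sec _ hA' _ (hN _ (hiN i)), hb.sec _ hA' _ (hN _ (hiN i)), h4,
        h6 _ (h1 i), h3 _ (h1 i), hk _ hA']
    · rw [hk'.base.sec _ hC _ (hN _ (hiN i)), h5, h6 _ (h1 i), hB'']

theorem rf_elem (hN : N.IsTransitive) (hj : Elem N j)
    (hpair : ∀ a ∈ N, ∀ b ∈ N, pair a b ∈ N) (hsub : ∀ a ∈ N, ∀ b, b ⊆ a → b ∈ N)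
    (hcof : ∀ x ∈ N, ∃ a ∈ N, x ∈ j a) (hidx : Function.Injective idx) (m : ℕ) :
    RF N idx m j :=
  rf_of_rc hN hpair hidx m _ j (rc_graph hN hj hpair hsub hcof m) fun _ hA =>
    (ap_graph hN hj hpair hsub hcof hA).symm

end Pool.Agent.I1PSP
end

-- part Pool.Agent.Lib.MP_9c5ecf_lc.Limit
section

/-!
Inverse limits of sequences of roots and their elementarity.
-/

namespace Pool.Agent.I1PSP

open ZFSet

universe u

theorem inter_sub_left (a b : ZFSet.{u}) : a ∩ b ⊆ a := fun _ hx => (mem_inter.1 hx).1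
theorem inter_sub_right (a b : ZFSet.{u}) : a ∩ b ⊆ b := fun _ hx => (mem_inter.1 hx).2

theorem inter_inter_of_subset (a : ZFSet.{u}) {b c : ZFSet.{u}} (h : c ⊆ b) :
    a ∩ b ∩ c = a ∩ c := by
  ext x
  simp only [mem_inter]
  exact ⟨fun H => ⟨H.1.1, H.2⟩, fun H => ⟨⟨H.1, h H.2⟩, H.2⟩⟩

/-- The frame for inverse limits. -/
structure Sys where
  N : ZFSet.{u}
  W : ℕ → ZFSet.{u}
  U : ℕ → ZFSet.{u}
  b : ℕ → ZFSet.{u}
  idx : ℕ → ZFSet.{u}
  trans : N.IsTransitive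
  W_mem : ∀ i, W i ∈ N
  W_succ : ∀ i, W i ⊆ W (i + 1)
  W_cof : ∀ x ∈ N, ∃ i, x ∈ W i
  U_sub : ∀ n, U n ⊆ W 0
  U_trans : ∀ n, (U n).IsTransitive
  b_succ : ∀ n, b (n + 1) = powerset (U n)
  b_sub : ∀ n, b n ⊆ U n
  idx_mem : ∀ n i, idx i ∈ b n

/-- The quantifier depth. -/
def Fml.depth : Fml → ℕ
  | .mem _ _ => 0
  | .eq _ _ => 0
  | .neg φ => φ.depth
  | .and φ ψ => max φ.depth ψ.depth
  | .ex φ => φ.depth + 1

namespace Sys

variable (S : Sys.{u})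

theorem W_sub (i : ℕ) : S.W i ⊆ S.N := S.trans _ (S.W_mem i)

theorem W_mono {i j : ℕ} (h : i ≤ j) : S.W i ⊆ S.W j := by
  induction h with
  | refl => exact subset_refl _
  | step _ ih => exact ih.trans (S.W_succ _)

theorem U_subN (n : ℕ) : S.U n ⊆ S.N := (S.U_sub n).trans (S.W_sub 0)

theorem b_subN (n : ℕ) : S.b n ⊆ S.N := (S.b_sub n).trans (S.U_subN n)

theorem U_succ (n : ℕ) : S.U n ⊆ S.U (n + 1) :=
  S.U_trans _ _ (S.b_sub _ (by rw [S.b_succ, mem_powerset]))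

theorem U_mono {i j : ℕ} (h : i ≤ j) : S.U i ⊆ S.U j := by
  induction h with
  | refl => exact subset_refl _
  | step _ ih => exact ih.trans (S.U_succ _)

theorem ext_W {A B : ZFSet.{u}} (hA : A ⊆ S.N) (hB : B ⊆ S.N)
    (h : ∀ d, A ∩ S.W d = B ∩ S.W d) : A = B := by
  ext x
  constructor
  · intro hx
    obtain ⟨d, hd⟩ := S.W_cof x (hA hx)
    exact (mem_inter.1 (h d ▸ mem_inter.2 ⟨hx, hd⟩)).1
  · intro hx
    obtain ⟨d, hd⟩ := S.W_cof x (hB hx)
    exact (mem_inter.1 ((h d).symm ▸ mem_inter.2 ⟨hx, hd⟩)).1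

/-- The union of the sets `U n`. -/
def Nb : ZFSet.{u} := ZFSet.sep (fun x => ∃ n, x ∈ S.U n) S.N

theorem mem_Nb {x : ZFSet.{u}} : x ∈ S.Nb ↔ ∃ n, x ∈ S.U n := by
  rw [Nb, mem_sep]
  exact ⟨fun h => h.2, fun ⟨n, h⟩ => ⟨S.U_subN n h, n, h⟩⟩

theorem Nb_sub : S.Nb ⊆ S.W 0 := fun _ hx => by
  obtain ⟨n, hn⟩ := S.mem_Nb.1 hx
  exact S.U_sub n hn

theorem ext_U {A B : ZFSet.{u}} (hA : A ⊆ S.Nb) (hB : B ⊆ S.Nb)
    (h : ∀ d, A ∩ S.U d = B ∩ S.U d) : A = B := by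
  ext x
  constructor
  · intro hx
    obtain ⟨d, hd⟩ := S.mem_Nb.1 (hA hx)
    exact (mem_inter.1 (h d ▸ mem_inter.2 ⟨hx, hd⟩)).1
  · intro hx
    obtain ⟨d, hd⟩ := S.mem_Nb.1 (hB hx)
    exact (mem_inter.1 ((h d).symm ▸ mem_inter.2 ⟨hx, hd⟩)).1

/-- Maps allowed at position `n`. -/
structure Step (m n : ℕ) (k : ZFSet.{u} → ZFSet.{u}) : Prop where
  rf : RF S.N S.idx m k
  fixb : k (S.b n) = S.b n
  fix : ∀ a ∈ S.b n, k a = a
  mapU : k (S.U n) = S.W 0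
  mapW : ∀ i, k (S.W i) = S.W (i + 1)

variable {S}

theorem Step.base {m n : ℕ} {k : ZFSet.{u} → ZFSet.{u}} (h : S.Step m n k) : Base S.N k :=
  h.rf.base

theorem Step.mono {m n : ℕ} {k : ZFSet.{u} → ZFSet.{u}} (h : S.Step (m + 1) n k) :
    S.Step m n k :=
  ⟨h.rf.mono, h.fixb, h.fix, h.mapU, h.mapW⟩

theorem Step.fix_sub {m p q : ℕ} {k : ZFSet.{u} → ZFSet.{u}} (h : S.Step m q k) (hpq : p < q)
    {a : ZFSet.{u}} (ha : a ⊆ S.U p) : k a = a := by
  obtain ⟨q, rfl⟩ : ∃ r, q = r + 1 := ⟨q - 1, by omega⟩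
  refine h.fix a ?_
  rw [S.b_succ, mem_powerset]
  exact ha.trans (S.U_mono (by omega))

theorem Step.root {m n : ℕ} {k : ZFSet.{u} → ZFSet.{u}} (h : S.Step (m + 1) n k)
    {ι : Type} [Countable ι] (A : ι → ZFSet.{u}) (hA : ∀ i, A i ⊆ S.N) {B : ZFSet.{u}}
    (hB : B ⊆ S.N) :
    ∃ k', S.Step m n k' ∧ (∀ i, k' (A i) = k (A i)) ∧ ∃ B', B' ⊆ S.N ∧ k' B' = B := by
  let A' : ι ⊕ ℕ ⊕ Bool → ZFSet.{u} :=
    Sum.elim A (Sum.elim S.W fun t => cond t (S.U n) (S.b n))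
  have hA' : ∀ i, A' i ⊆ S.N := by
    rintro (i | i | t)
    · exact hA i
    · exact S.W_sub i
    · cases t
      · exact S.b_subN n
      · exact S.U_subN n
  obtain ⟨e, he⟩ := exists_surjective_nat (ι ⊕ ℕ ⊕ Bool)
  obtain ⟨k', h1, h2, h3, h4⟩ := h.rf.2 (fun i => A' (e i)) (fun _ => B) (fun i => hA' _)
    (fun _ => hB) (S.b n) (S.b_subN n) (S.idx_mem n) h.fixb h.fix
  have h5 : ∀ i, k' (A' i) = k (A' i) := fun i => by
    obtain ⟨i, rfl⟩ := he i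
    exact h2 i
  exact ⟨k', ⟨h1, (h5 (.inr (.inr false))).trans h.fixb, h4, (h5 (.inr (.inr true))).trans h.mapU,
    fun i => (h5 (.inr (.inl i))).trans (h.mapW i)⟩, fun i => h5 (.inl i), h3 0⟩

variable (S)

/-- A thread through the sequence of maps `k`. -/
def Thread (k : ℕ → ZFSet.{u} → ZFSet.{u}) (y : ℕ → ZFSet.{u}) : Prop :=
  ∀ n, y n ⊆ S.N ∧ k n (y (n + 1)) = y n

/-- `c` is the base of the thread `y`. -/
def BaseOf (y : ℕ → ZFSet.{u}) (c : ZFSet.{u}) : Prop :=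
  c ⊆ S.Nb ∧ ∀ p, c ∩ S.U p = y (p + 1) ∩ S.U p

variable {S} {m : ℕ} {k k' : ℕ → ZFSet.{u} → ZFSet.{u}} {y y' : ℕ → ZFSet.{u}} {c c' : ZFSet.{u}}

theorem Thread.inter_U (hk : ∀ n, S.Step m n (k n)) (hy : S.Thread k y) {p q : ℕ} (h : p ≤ q) :
    y (q + 1) ∩ S.U p = y (p + 1) ∩ S.U p := by
  induction h with
  | refl => rfl
  | @step q h ih =>
    have hq : p < q + 1 := Nat.lt_succ_of_le h
    rw [← ih, ← (hy (q + 1)).2]
    conv_rhs => rw [← (hk (q + 1)).fix_sub hq (subset_refl (S.U p))]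
    rw [← (hk (q + 1)).base.inter _ (hy _).1 _ (S.U_subN p),
      (hk (q + 1)).fix_sub hq (inter_sub_right _ _)]

theorem Thread.exists_base (hk : ∀ n, S.Step m n (k n)) (hy : S.Thread k y) :
    ∃ c, S.BaseOf y c := by
  refine ⟨ZFSet.sep (fun x => ∃ p, x ∈ y (p + 1) ∩ S.U p) S.Nb, sep_subset, fun p => ?_⟩
  ext x
  rw [mem_inter, mem_sep]
  constructor
  · rintro ⟨⟨-, q, hq⟩, hx⟩
    rcases le_total p q with h | h
    · rw [← hy.inter_U hk h]
      exact mem_inter.2 ⟨(mem_inter.1 hq).1, hx⟩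
    · rw [← hy.inter_U hk h] at hq
      exact mem_inter.2 ⟨(mem_inter.1 hq).1, hx⟩
  · intro hx
    exact ⟨⟨S.mem_Nb.2 ⟨p, (mem_inter.1 hx).2⟩, p, hx⟩, (mem_inter.1 hx).2⟩

theorem Thread.inter_W_zero (hk : ∀ n, S.Step m n (k n)) (hy : S.Thread k y) (hc : S.BaseOf y c)
    (n : ℕ) : y n ∩ S.W 0 = k n (c ∩ S.U n) := by
  rw [hc.2, (hk n).base.inter _ (hy _).1 _ (S.U_subN n), (hy n).2, (hk n).mapU]

theorem Thread.inter_W_succ (hk : ∀ n, S.Step m n (k n)) (hy : S.Thread k y) (n d : ℕ) :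
    y n ∩ S.W (d + 1) = k n (y (n + 1) ∩ S.W d) := by
  rw [(hk n).base.inter _ (hy _).1 _ (S.W_sub d), (hy n).2, (hk n).mapW]

theorem Thread.agree {m' : ℕ} (hk : ∀ n, S.Step m n (k n)) (hk' : ∀ n, S.Step m' n (k' n))
    (hy : S.Thread k y) (hy' : S.Thread k' y') (hc : S.BaseOf y c) (hc' : S.BaseOf y' c) (d : ℕ) :
    ∀ n, (∀ i, n ≤ i → i ≤ n + d → k i = k' i) → y n ∩ S.W d = y' n ∩ S.W d := by
  induction d with
  | zero =>
    intro n h
    rw [hy.inter_W_zero hk hc, hy'.inter_W_zero hk' hc', h n le_rfl le_rfl]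
  | succ d ih =>
    intro n h
    rw [hy.inter_W_succ hk, hy'.inter_W_succ hk', h n le_rfl (by omega),
      ih (n + 1) fun i h1 h2 => h i (by omega) (by omega)]

theorem Thread.agree_iff (hk : ∀ n, S.Step m n (k n)) (hk' : ∀ n, S.Step m n (k' n))
    (hy : S.Thread k y) (hy' : S.Thread k' y') (n : ℕ) : ∀ d, (∀ i, i < n → k i = k' i) →
      (y 0 ∩ S.W (n + d) = y' 0 ∩ S.W (n + d) ↔ y n ∩ S.W d = y' n ∩ S.W d) := by
  induction n with
  | zero => intro d _; rw [Nat.zero_add]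
  | succ n ih =>
    intro d h
    rw [show n + 1 + d = n + (d + 1) by omega, ih (d + 1) fun i hi => h i (by omega),
      hy.inter_W_succ hk, hy'.inter_W_succ hk', ← h n (by omega)]
    exact ⟨fun e => (hk n).base.inj S.trans ((inter_sub_right _ _).trans (S.W_sub d))
      ((inter_sub_right _ _).trans (S.W_sub d)) e, fun e => by rw [e]⟩

/-- Finite approximations to a thread. -/
def approx (S : Sys.{u}) (k : ℕ → ZFSet.{u} → ZFSet.{u}) (c : ZFSet.{u}) : ℕ → ℕ → ZFSet.{u}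
  | 0, n => k n (c ∩ S.U n)
  | d + 1, n => k n (approx S k c d (n + 1))

theorem exists_thread (hk : ∀ n, S.Step m n (k n)) (hc : c ⊆ S.Nb) :
    ∃ y, S.Thread k y ∧ S.BaseOf y c := by
  have hU : ∀ n, c ∩ S.U n ⊆ S.N := fun n => (inter_sub_right _ _).trans (S.U_subN n)
  have h0 : ∀ d n, approx S k c d n ⊆ S.N := by
    intro d
    induction d with
    | zero => exact fun n => (hk n).base.maps _ (hU n)
    | succ d ih => exact fun n => (hk n).base.maps _ (ih _)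
  have h1 : ∀ n, approx S k c 0 (n + 1) ∩ S.U n = c ∩ S.U n := by
    intro n
    have hn : n < n + 1 := Nat.lt_succ_self n
    conv_lhs => rw [← (hk (n + 1)).fix_sub hn (subset_refl (S.U n))]
    rw [approx, ← (hk (n + 1)).base.inter _ (hU _) _ (S.U_subN n),
      inter_inter_of_subset _ (S.U_succ n), (hk (n + 1)).fix_sub hn (inter_sub_right _ _)]
  have h2 : ∀ d n, approx S k c (d + 1) n ∩ S.W d = approx S k c d n := by
    intro d
    induction d with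
    | zero =>
      intro n
      change k n (approx S k c 0 (n + 1)) ∩ S.W 0 = k n (c ∩ S.U n)
      rw [← (hk n).mapU, ← (hk n).base.inter _ (h0 _ _) _ (S.U_subN n), h1]
    | succ d ih =>
      intro n
      change k n (approx S k c (d + 1) (n + 1)) ∩ S.W (d + 1) = k n (approx S k c d (n + 1))
      rw [← (hk n).mapW, ← (hk n).base.inter _ (h0 _ _) _ (S.W_sub d), ih]
  have h3 : ∀ n d e, d ≤ e → approx S k c e n ∩ S.W d = approx S k c d n := by
    intro n d e h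
    induction h with
    | refl =>
      conv_lhs => rw [← h2, inter_inter_of_subset _ (subset_refl _)]
      exact h2 _ _
    | @step e h ih => rw [← ih, ← h2 e n, inter_inter_of_subset _ (S.W_mono h)]
  let y : ℕ → ZFSet.{u} := fun n => ZFSet.sep (fun x => ∃ d, x ∈ approx S k c d n) S.N
  have hy : ∀ n, y n ⊆ S.N := fun n => sep_subset
  have h4 : ∀ n d, y n ∩ S.W d = approx S k c d n := by
    intro n d
    ext x
    simp only [y, mem_inter, mem_sep]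
    constructor
    · rintro ⟨⟨-, e, he⟩, hx⟩
      rcases le_total d e with h | h
      · rw [← h3 n d e h]
        exact mem_inter.2 ⟨he, hx⟩
      · rw [← h3 n e d h] at he
        exact (mem_inter.1 he).1
    · intro hx
      refine ⟨⟨h0 _ _ hx, d, hx⟩, ?_⟩
      rw [← h2] at hx
      exact (mem_inter.1 hx).2
  refine ⟨y, fun n => ⟨hy n, S.ext_W ((hk n).base.maps _ (hy _)) (hy n) fun d => ?_⟩, hc,
    fun p => ?_⟩
  · rw [← inter_inter_of_subset _ (S.W_succ d), ← inter_inter_of_subset (y n) (S.W_succ d),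
      h4, ← (hk n).mapW, ← (hk n).base.inter _ (hy _) _ (S.W_sub d), h4, approx]
  · rw [← inter_inter_of_subset (y (p + 1)) (S.U_sub p), h4, h1]

theorem Thread.mem_iff (hk : ∀ n, S.Step m n (k n)) (hy : S.Thread k y) (hy' : S.Thread k y')
    (n : ℕ) : y 0 ∈ y' 0 ↔ y n ∈ y' n := by
  induction n with
  | zero => rfl
  | succ n ih =>
    rw [ih, ← (hk n).base.mem_iff _ (hy (n + 1)).1 _ (hy' (n + 1)).1, (hy n).2, (hy' n).2]

theorem Thread.eq_iff (hk : ∀ n, S.Step m n (k n)) (hy : S.Thread k y) (hy' : S.Thread k y')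
    (n : ℕ) : y 0 = y' 0 ↔ y n = y' n := by
  induction n with
  | zero => rfl
  | succ n ih =>
    rw [ih]
    constructor
    · intro e
      exact (hk n).base.inj S.trans (hy (n + 1)).1 (hy' (n + 1)).1
        (by rw [(hy n).2, (hy' n).2, e])
    · intro e
      rw [← (hy n).2, ← (hy' n).2, e]

theorem Thread.base_eq_iff (hk : ∀ n, S.Step m n (k n)) (hy : S.Thread k y) (hy' : S.Thread k y')
    (hc : S.BaseOf y c) (hc' : S.BaseOf y' c') : c = c' ↔ y 0 = y' 0 := by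
  constructor
  · rintro rfl
    exact S.ext_W (hy 0).1 (hy' 0).1 fun d => hy.agree hk hk hy' hc hc' d 0 fun _ _ _ => rfl
  · intro e
    exact S.ext_U hc.1 hc'.1 fun p => by rw [hc.2, hc'.2, (hy.eq_iff hk hy' (p + 1)).1 e]

theorem Thread.eq_base (hk : ∀ n, S.Step m n (k n)) (hy : S.Thread k y) (hc : S.BaseOf y c)
    {p : ℕ} (h : c ⊆ S.U p) : y (p + 1) = c := by
  have hcN : c ⊆ S.N := h.trans (S.U_subN p)
  have h1 : ∀ d n, p < n → y n ∩ S.W d = c := by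
    intro d
    induction d with
    | zero =>
      intro n hn
      rw [hy.inter_W_zero hk hc, inter_eq_left_of_subset (h.trans (S.U_mono hn.le)),
        (hk n).fix_sub hn h]
    | succ d ih =>
      intro n hn
      rw [hy.inter_W_succ hk, ih _ (by omega), (hk n).fix_sub hn h]
  refine S.ext_W (hy _).1 hcN fun d => ?_
  rw [h1 d _ (Nat.lt_succ_self p),
    inter_eq_left_of_subset (h.trans ((S.U_sub p).trans (S.W_mono (Nat.zero_le d))))]

theorem Thread.base_mem_iff (hk : ∀ n, S.Step m n (k n)) (hy : S.Thread k y) (hy' : S.Thread k y')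
    (hc : S.BaseOf y c) (hc' : S.BaseOf y' c') : c ∈ c' ↔ y 0 ∈ y' 0 := by
  constructor
  · intro h
    obtain ⟨p, hp⟩ := S.mem_Nb.1 (hc'.1 h)
    rw [hy.mem_iff hk hy' (p + 1), hy.eq_base hk hc (S.U_trans p c hp)]
    exact (mem_inter.1 (hc'.2 p ▸ mem_inter.2 ⟨h, hp⟩)).1
  · intro h
    obtain ⟨d, hd⟩ := S.W_cof _ ((hy' 0).1 h)
    have h1 : ∀ d n, y n ∈ S.W d → y (n + d + 1) ∈ S.U (n + d) := by
      intro d
      induction d with
      | zero =>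
        intro n hn
        rwa [← (hy n).2, ← (hk n).mapU, (hk n).base.mem_iff _ (hy _).1 _ (S.U_subN n)] at hn
      | succ d ih =>
        intro n hn
        rw [← (hy n).2, ← (hk n).mapW, (hk n).base.mem_iff _ (hy _).1 _ (S.W_sub d)] at hn
        have := ih (n + 1) hn
        rwa [show n + 1 + d = n + (d + 1) by omega] at this
    have h2 : y (d + 1) ∈ S.U d := by simpa using h1 d 0 hd
    have h3 : y (d + 1) ⊆ S.U d := S.U_trans d _ h2
    have h4 : ∀ q, d ≤ q → y (q + 1) = y (d + 1) := by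
      intro q hq
      induction hq with
      | refl => rfl
      | @step q hq ih =>
        refine (hk (q + 1)).base.inj S.trans (hy _).1 (hy _).1 ?_
        rw [(hy (q + 1)).2, ih, (hk (q + 1)).fix_sub (Nat.lt_succ_of_le hq) h3]
    have h5 : c = y (d + 1) := by
      refine S.ext_U hc.1 (fun x hx => S.mem_Nb.2 ⟨d, h3 hx⟩) fun p => ?_
      rw [← inter_inter_of_subset c (S.U_mono (le_max_left p d)), hc.2, h4 _ (le_max_right _ _),
        inter_inter_of_subset _ (S.U_mono (le_max_left p d))]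
    rw [hy.mem_iff hk hy' (d + 1)] at h
    rw [h5]
    exact (mem_inter.1 ((hc'.2 d).symm ▸ mem_inter.2 ⟨h, h2⟩)).1

/-- Pulling a set back along a sequence of roots. -/
theorem exists_roots (hk : ∀ n, S.Step (m + 1) n (k n)) {ι : Type} [Countable ι]
    (A : ℕ → ι → ZFSet.{u}) (hA : ∀ n i, A n i ⊆ S.N) {x : ZFSet.{u}} (hx : x ⊆ S.N) :
    ∃ k' y, (∀ n, S.Step m n (k' n)) ∧ (∀ n i, k' n (A n i) = k n (A n i)) ∧
      S.Thread k' y ∧ y 0 = x := by
  have h : ∀ (n : ℕ) (B : {B : ZFSet.{u} // B ⊆ S.N}), ∃ (k' : ZFSet.{u} → ZFSet.{u})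
      (B' : {B : ZFSet.{u} // B ⊆ S.N}), S.Step m n k' ∧ (∀ i, k' (A n i) = k n (A n i)) ∧
        k' B'.1 = B.1 := by
    intro n B
    obtain ⟨k', h1, h2, B', h3, h4⟩ := (hk n).root (A n) (hA n) B.2
    exact ⟨k', ⟨B', h3⟩, h1, h2, h4⟩
  choose F G h1 h2 h3 using h
  let y : ℕ → {B : ZFSet.{u} // B ⊆ S.N} := fun n => Nat.rec ⟨x, hx⟩ (fun n B => G n B) n
  exact ⟨fun n => F n (y n), fun n => (y n).1, fun n => h1 n _, fun n => h2 n _,
    fun n => ⟨(y n).2, h3 n (y n)⟩, rfl⟩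

/-- Inverse limits are elementary. -/
theorem sat_iff (φ : Fml) : ∀ (m : ℕ) (k : ℕ → ZFSet.{u} → ZFSet.{u}) (Y : ℕ → ℕ → ZFSet.{u})
    (v : ℕ → ZFSet.{u}), φ.depth ≤ m → (∀ n, S.Step m n (k n)) → (∀ i, S.Thread k (Y i)) →
    (∀ i, S.BaseOf (Y i) (v i)) → (Sat (PP S.Nb) φ v ↔ Sat (PP S.N) φ fun i => Y i 0) := by
  induction φ with
  | mem i j => exact fun m k Y v _ hk hY hv => (hY i).base_mem_iff hk (hY j) (hv i) (hv j)
  | eq i j => exact fun m k Y v _ hk hY hv => (hY i).base_eq_iff hk (hY j) (hv i) (hv j)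
  | neg φ ih => exact fun m k Y v h hk hY hv => not_congr (ih m k Y v h hk hY hv)
  | and φ ψ ih1 ih2 =>
    exact fun m k Y v h hk hY hv => and_congr (ih1 m k Y v (le_of_max_le_left h) hk hY hv)
      (ih2 m k Y v (le_of_max_le_right h) hk hY hv)
  | ex φ ih =>
    intro m k Y v h hk hY hv
    obtain ⟨m, rfl⟩ : ∃ r, m = r + 1 := ⟨m - 1, by simp only [Fml.depth] at h; omega⟩
    have h' : φ.depth ≤ m := by simp only [Fml.depth] at h; omega
    have key : ∀ (k' : ℕ → ZFSet.{u} → ZFSet.{u}) (y : ℕ → ZFSet.{u}) (c : ZFSet.{u}),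
        (∀ n, S.Step m n (k' n)) → (∀ i, S.Thread k' (Y i)) → S.Thread k' y → S.BaseOf y c →
        (Sat (PP S.Nb) φ (cons c v) ↔ Sat (PP S.N) φ (cons (y 0) fun i => Y i 0)) := by
      intro k' y c h1 h2 h3 h4
      have := ih m k' (fun i => Nat.casesOn i y Y) (cons c v) h' h1
        (fun i => by cases i <;> [exact h3; exact h2 _])
        (fun i => by cases i <;> [exact h4; exact hv _])
      rw [this]
      have e : (fun i => (Nat.casesOn i y Y : ℕ → ZFSet.{u}) 0) = cons (y 0) fun i => Y i 0 := by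
        funext i; cases i <;> rfl
      rw [e]
    constructor
    · rintro ⟨c, hc, H⟩
      obtain ⟨y, h1, h2⟩ := exists_thread hk hc
      exact ⟨y 0, (h1 0).1, (key k y c (fun n => (hk n).mono) hY h1 h2).1 H⟩
    · rintro ⟨x, hx, H⟩
      obtain ⟨k', y, h1, h2, h3, rfl⟩ := exists_roots hk (fun n i => Y i (n + 1))
        (fun n i => (hY i _).1) hx
      obtain ⟨c, hc⟩ := h3.exists_base h1
      exact ⟨c, hc.1, (key k' y c h1 (fun i n => ⟨(hY i n).1, (h2 n i).trans (hY i n).2⟩)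
        h3 hc).2 H⟩

end Sys

end Pool.Agent.I1PSP
end

-- part Pool.Agent.Lib.MP_9c5ecf_lc.Perfect
section

/-!
The perfect tree of inverse limits.
-/

namespace Pool.Agent.I1PSP

open ZFSet

universe u

open Classical in
/-- First component of a pair. -/
noncomputable def fst (p : ZFSet.{u}) : ZFSet.{u} :=
  if h : ∃ q : ZFSet.{u} × ZFSet.{u}, p = pair q.1 q.2 then h.choose.1 else ∅

open Classical in
/-- Second component of a pair. -/
noncomputable def snd (p : ZFSet.{u}) : ZFSet.{u} :=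
  if h : ∃ q : ZFSet.{u} × ZFSet.{u}, p = pair q.1 q.2 then h.choose.2 else ∅

@[simp] theorem fst_pair (a b : ZFSet.{u}) : fst (pair a b) = a := by
  have h : ∃ q : ZFSet.{u} × ZFSet.{u}, pair a b = pair q.1 q.2 := ⟨(a, b), rfl⟩
  rw [fst, dif_pos h]
  exact (pair_inj.1 h.choose_spec).1.symm

@[simp] theorem snd_pair (a b : ZFSet.{u}) : snd (pair a b) = b := by
  have h : ∃ q : ZFSet.{u} × ZFSet.{u}, pair a b = pair q.1 q.2 := ⟨(a, b), rfl⟩
  rw [snd, dif_pos h]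
  exact (pair_inj.1 h.choose_spec).2.symm

/-- `D` has at most as many elements as `N`. -/
def Sm (N : ZFSet.{u}) (D : Set ZFSet.{u}) : Prop :=
  ∃ f : ZFSet.{u} → ZFSet.{u}, ∀ y ∈ D, ∃ a ∈ N, f a = y

variable {N : ZFSet.{u}}

theorem Sm.mono {D E : Set ZFSet.{u}} (h : Sm N E) (H : D ⊆ E) : Sm N D := by
  obtain ⟨f, hf⟩ := h
  exact ⟨f, fun y hy => hf y (H hy)⟩

theorem Sm.biUnion (hpair : ∀ a ∈ N, ∀ b ∈ N, pair a b ∈ N) {I : Set ZFSet.{u}}
    (hI : ∀ c ∈ I, c ∈ N) {D : ZFSet.{u} → Set ZFSet.{u}} (h : ∀ c ∈ I, Sm N (D c)) :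
    Sm N {y | ∃ c ∈ I, y ∈ D c} := by
  choose! f hf using h
  refine ⟨fun p => f (fst p) (snd p), fun y ⟨c, hc, hy⟩ => ?_⟩
  obtain ⟨a, ha, e⟩ := hf c hc y hy
  exact ⟨pair c a, hpair _ (hI c hc) _ ha, by simpa using e⟩

theorem Sm.iUnion (hpair : ∀ a ∈ N, ∀ b ∈ N, pair a b ∈ N) {idx : ℕ → ZFSet.{u}}
    (hidx : Function.Injective idx) (hN : ∀ i, idx i ∈ N) {D : ℕ → Set ZFSet.{u}}
    (h : ∀ n, Sm N (D n)) : Sm N {y | ∃ n, y ∈ D n} := by
  refine (Sm.biUnion hpair (I := Set.range idx) (D := fun c => D (Function.invFun idx c))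
    (by rintro _ ⟨i, rfl⟩; exact hN i) fun c _ => h _).mono ?_
  rintro y ⟨n, hn⟩
  exact ⟨idx n, ⟨n, rfl⟩, by rwa [Function.leftInverse_invFun hidx n]⟩

theorem sm_sec (e : ZFSet.{u}) : Sm N {y | ∃ a ∈ N, sec N e a = y} := ⟨sec N e, fun _ h => h⟩

theorem Sm.exists_sec (hpair : ∀ a ∈ N, ∀ b ∈ N, pair a b ∈ N) {D : Set ZFSet.{u}} (h : Sm N D) :
    ∃ e, e ⊆ N ∧ ∀ y ∈ D, y ⊆ N → ∃ a ∈ N, sec N e a = y := by
  obtain ⟨f, hf⟩ := h
  obtain ⟨e, he, he'⟩ := exists_code (ι := {a // a ∈ N}) hpair Subtype.val_injective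
    (fun a => a.2) (fun a => f a.1 ∩ N) fun a => inter_sub_right _ _
  refine ⟨e, he, fun y hy hyN => ?_⟩
  obtain ⟨a, ha, rfl⟩ := hf y hy
  exact ⟨a, ha, (he' ⟨a, ha⟩).trans (inter_eq_left_of_subset hyN)⟩

theorem exists_level (S : Sys.{u}) (hidx : Function.Injective S.idx)
    (hseq : ∀ a ∈ S.N, ∀ c, (∀ p ∈ c, ∃ i, ∃ x ∈ a, p = pair (S.idx i) x) → c ∈ S.N)
    (hpair : ∀ a ∈ S.N, ∀ b ∈ S.N, pair a b ∈ S.N)
    {D : Set ZFSet.{u}} (hD : ∀ y ∈ D, y ⊆ S.N) (h : ¬ Sm S.N D) {a : ZFSet.{u}} (ha : a ∈ S.N) :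
    ∃ (d : ℕ) (g : ZFSet.{u} → ZFSet.{u}), (∀ x ∈ a, g x ∈ D) ∧
      ∀ x ∈ a, ∀ x' ∈ a, g x ∩ S.W d = g x' ∩ S.W d → x = x' := by
  classical
  by_contra hc
  apply h
  have h1 : ∀ d, ∃ f : ZFSet.{u} → ZFSet.{u}, (∀ y ∈ D, f y ∈ a) ∧
      ∀ y ∈ D, ∀ y' ∈ D, f y = f y' → y ∩ S.W d = y' ∩ S.W d := by
    intro d
    let L : Set ZFSet.{u} := {w | ∃ y ∈ D, y ∩ S.W d = w}
    rcases Function.Embedding.total {x // x ∈ a} L with ⟨⟨e⟩⟩ | ⟨⟨e⟩⟩
    · exfalso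
      apply hc
      have h2 : ∀ x : {x // x ∈ a}, ∃ y ∈ D, y ∩ S.W d = (e x).1 := fun x => (e x).2
      choose y hy hy' using h2
      refine ⟨d, fun x => if h : x ∈ a then y ⟨x, h⟩ else ∅, fun x hx => ?_, fun x hx x' hx' => ?_⟩
      · simp only [dif_pos hx]; exact hy _
      · simp only [dif_pos hx, dif_pos hx', hy']
        intro e'
        exact congrArg Subtype.val (e.injective (Subtype.ext e'))
    · refine ⟨fun y => if h : y ∈ D then (e ⟨y ∩ S.W d, y, h, rfl⟩).1 else ∅, fun y hy => ?_,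
        fun y hy y' hy' => ?_⟩
      · simp only [dif_pos hy]; exact (e _).2
      · simp only [dif_pos hy, dif_pos hy']
        intro e'
        exact congrArg Subtype.val (e.injective (Subtype.ext e'))
  choose f hf hf' using h1
  let code : ZFSet.{u} → ZFSet.{u} := fun y =>
    ZFSet.sep (fun p => ∃ d, p = pair (S.idx d) (f d y)) S.N
  have h2 : ∀ y ∈ D, ∀ y' ∈ D, code y = code y' → y = y' := by
    intro y hy y' hy' e
    refine S.ext_W (hD y hy) (hD y' hy') fun d => hf' d y hy y' hy' ?_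
    have h3 : pair (S.idx d) (f d y) ∈ code y :=
      mem_sep.2 ⟨hpair _ (S.b_subN 0 (S.idx_mem 0 d)) _ (S.trans _ ha (hf d y hy)), d, rfl⟩
    rw [e] at h3
    obtain ⟨-, d', h4⟩ := mem_sep.1 h3
    obtain ⟨h5, h6⟩ := pair_inj.1 h4
    rw [h6, hidx h5]
  refine ⟨fun c => if h : ∃ y ∈ D, code y = c then h.choose else ∅, fun y hy =>
    ⟨code y, hseq a ha _ fun p hp => ?_, ?_⟩⟩
  · obtain ⟨-, d, rfl⟩ := mem_sep.1 hp
    exact ⟨d, _, hf d y hy, rfl⟩
  · have h3 : ∃ y' ∈ D, code y' = code y := ⟨y, hy, rfl⟩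
    simp only [dif_pos h3]
    exact h2 _ h3.choose_spec.1 _ hy h3.choose_spec.2

/-- The reference sequence of roots of `j`. -/
theorem exists_sys {W idx : ℕ → ZFSet.{u}} {j : ZFSet.{u} → ZFSet.{u}} {m : ℕ}
    (hN : N.IsTransitive) (hW : ∀ i, W i ∈ N) (hWs : ∀ i, W i ⊆ W (i + 1))
    (hcof : ∀ x ∈ N, ∃ i, x ∈ W i) (h01 : W 0 ∈ W 1) (hW0 : (W 0).IsTransitive)
    (hpow : ∀ a ∈ W 0, powerset a ∈ W 0) {b₀ : ZFSet.{u}} (hb₀ : b₀ ∈ W 0)
    (hidx : ∀ i, idx i ∈ b₀) (hj : RF N idx (m + 1) j) (hjW : ∀ i, j (W i) = W (i + 1))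
    (hfix : ∀ a ∈ W 0, j a = a) {z : ℕ → ZFSet.{u}} (hz : Val N z) :
    ∃ (S : Sys.{u}) (J : ℕ → ZFSet.{u} → ZFSet.{u}) (Z : ℕ → ℕ → ZFSet.{u}),
      S.N = N ∧ S.W = W ∧ S.idx = idx ∧ (∀ n, S.Step m n (J n)) ∧ (∀ i, S.Thread J (Z i)) ∧
        ∀ i, Z i 0 = z i := by
  have hWN : ∀ i, W i ⊆ N := fun i => hN _ (hW i)
  let T := {q : ZFSet.{u} × (ℕ → ZFSet.{u}) // q.1 ∈ W 0 ∧ (∀ i, idx i ∈ q.1) ∧ Val N q.2}
  have h : ∀ q : T, ∃ (k : ZFSet.{u} → ZFSet.{u}) (U : ZFSet.{u}) (q' : T), RF N idx m k ∧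
      k q.1.1 = q.1.1 ∧ (∀ a ∈ q.1.1, k a = a) ∧ k U = W 0 ∧ (∀ i, k (W i) = W (i + 1)) ∧
      U ⊆ W 0 ∧ U.IsTransitive ∧ q'.1.1 = powerset U ∧ q.1.1 ⊆ U ∧
      ∀ i, k (q'.1.2 i) = q.1.2 i := by
    rintro ⟨⟨b, w⟩, hb, hi, hw⟩
    have hbN : b ⊆ N := (hW0 b hb).trans (hWN 0)
    obtain ⟨k, h1, h2, h3, h4⟩ := hj.2 (cons b W) (cons (W 0) w) (Val.cons hbN hWN)
      (Val.cons (hWN 0) hw) b hbN hi (hfix b hb) fun a ha => hfix a (hW0 b hb ha)
    choose w' h5 h6 using h3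
    have h7 : k (w' 0) = W 0 := h6 0
    have h8 : ∀ i, k (W i) = W (i + 1) := fun i => (h2 (i + 1)).trans (hjW i)
    have h9 : w' 0 ∈ W 0 := by
      rw [← h1.base.mem_iff _ (h5 0) _ (hWN 0), h7, h8]; exact h01
    have h10 : (w' 0).IsTransitive := by
      intro x hx y hy
      have hxN : x ⊆ N := hN x (h5 0 hx)
      have hyN : y ⊆ N := hN y (hxN hy)
      rw [← h1.base.mem_iff _ hyN _ (h5 0), h7]
      rw [← h1.base.mem_iff _ hxN _ (h5 0), h7] at hx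
      rw [← h1.base.mem_iff _ hyN _ hxN] at hy
      exact hW0 _ hx hy
    have h11 : b ⊆ w' 0 := by
      intro a ha
      rw [← h1.base.mem_iff _ (hN a (hbN ha)) _ (h5 0), h7, h4 a ha]
      exact hW0 b hb ha
    exact ⟨k, w' 0, ⟨(powerset (w' 0), fun i => w' (i + 1)), hpow _ h9,
      fun i => mem_powerset.2 (h10 _ (h11 (hi i))), fun i => h5 _⟩, h1,
      (h2 0).trans (hfix b hb), h4, h7, h8, hW0 _ h9, h10, rfl, h11, fun i => h6 (i + 1)⟩
  choose K U G h1 h2 h3 h4 h5 h6 h7 h8 h9 h10 using h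
  let q : ℕ → T := fun n => Nat.rec ⟨(b₀, z), hb₀, hidx, hz⟩ (fun _ q => G q) n
  exact ⟨⟨N, W, fun n => U (q n), fun n => (q n).1.1, idx, hN, hW, hWs, hcof, fun n => h6 _,
    fun n => h7 _, fun n => h8 (q n), fun n => h9 _, fun n => (q n).2.2.1⟩,
    fun n => K (q n), fun i n => (q n).1.2 i, rfl, rfl, rfl,
    fun n => ⟨h1 _, h2 _, h3 _, h4 _, h5 _⟩, fun i n => ⟨(q n).2.2.2 i, h10 (q n) i⟩, fun _ => rfl⟩

namespace Sys

variable (S : Sys.{u})

/-- Sequences of maps that respect the parameters. -/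
def Good (m : ℕ) (Z : ℕ → ℕ → ZFSet.{u}) (k : ℕ → ZFSet.{u} → ZFSet.{u}) : Prop :=
  ∀ n, S.Step m n (k n) ∧ ∀ i, k n (Z i (n + 1)) = Z i n

/-- The possible images of `c` at level `n`. -/
def Vals (m : ℕ) (Z : ℕ → ℕ → ZFSet.{u}) (n : ℕ) (c : ZFSet.{u}) : Set ZFSet.{u} :=
  {w | ∃ k y, S.Good m Z k ∧ S.Thread k y ∧ S.BaseOf y c ∧ y n = w}

variable {S} {m : ℕ} {Z : ℕ → ℕ → ZFSet.{u}} {J : ℕ → ZFSet.{u} → ZFSet.{u}}

/-- Pushing a set at level `n` down to level `0`. -/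
theorem exists_push (hJ : ∀ n, S.Step m n (J n)) (n : ℕ) {e : ZFSet.{u}} (he : e ⊆ S.N) :
    ∃ E : ℕ → ZFSet.{u}, (∀ i, E i ⊆ S.N) ∧ E n = e ∧ ∀ i < n, J i (E (i + 1)) = E i := by
  induction n generalizing e with
  | zero => exact ⟨fun _ => e, fun _ => he, rfl, fun _ h => absurd h (Nat.not_lt_zero _)⟩
  | succ n ih =>
    obtain ⟨E, h1, h2, h3⟩ := ih ((hJ n).base.maps e he)
    refine ⟨Function.update E (n + 1) e, fun i => ?_, by simp, fun i hi => ?_⟩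
    · by_cases h : i = n + 1
      · subst h; simpa using he
      · rw [Function.update_of_ne h]; exact h1 i
    · rw [Function.update_of_ne (by omega : i ≠ n + 1)]
      by_cases h : i = n
      · subst h; simp [h2]
      · rw [Function.update_of_ne (by omega : i + 1 ≠ n + 1)]
        exact h3 i (by omega)

theorem Step.mem_N {n : ℕ} {k : ZFSet.{u} → ZFSet.{u}} (h : S.Step m n k) {a : ZFSet.{u}}
    (ha : a ∈ S.N) : k a ∈ S.N := by
  obtain ⟨i, hi⟩ := S.W_cof a ha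
  rw [← h.base.mem_iff _ (S.trans a ha) _ (S.W_sub i), h.mapW] at hi
  exact S.W_sub _ hi

theorem exists_good_point (hpair : ∀ a ∈ S.N, ∀ b ∈ S.N, pair a b ∈ S.N)
    (hidx : Function.Injective S.idx) (hsub : ∀ c, c ⊆ S.W 0 → c ∈ S.N)
    (hJ : ∀ n, S.Step (m + 1) n (J n)) (hZ : ∀ i, S.Thread J (Z i)) {X : Set ZFSet.{u}}
    (hXN : ∀ y ∈ X, y ⊆ S.N) (hX : ¬ Sm S.N X) :
    ∃ k y c, S.Good m Z k ∧ S.Thread k y ∧ S.BaseOf y c ∧ y 0 ∈ X ∧
      ∀ n, ¬ Sm S.N (S.Vals m Z n c) := by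
  have h1 : ∀ n, Sm S.N {w | ∃ c ∈ {c | c ⊆ S.Nb ∧ Sm S.N (S.Vals m Z n c)},
      w ∈ S.Vals m Z n c} := fun n =>
    Sm.biUnion hpair (fun c hc => hsub c (hc.1.trans S.Nb_sub)) fun c hc => hc.2
  choose e he he' using fun n => (h1 n).exists_sec hpair
  choose E hE hE' hE'' using fun n => exists_push hJ n (he n)
  have h2 : Sm S.N {y | ∃ n, y ∈ {y | ∃ a ∈ S.N, sec S.N (E n 0) a = y}} :=
    Sm.iUnion hpair hidx (fun i => S.b_subN 0 (S.idx_mem 0 i)) fun n => sm_sec _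
  obtain ⟨x, hx, hx'⟩ : ∃ x ∈ X, ¬ ∃ n, ∃ a ∈ S.N, sec S.N (E n 0) a = x := by
    by_contra hc
    push Not at hc
    exact hX (h2.mono fun x hx => hc x hx)
  obtain ⟨k, y, h3, h4, h5, rfl⟩ := exists_roots hJ (ι := ℕ ⊕ ℕ)
    (fun n => Sum.elim (fun i => Z i (n + 1)) fun i => E i (n + 1))
    (by
      rintro n (i | i)
      · exact (hZ i _).1
      · exact hE i _) (hXN x hx)
  obtain ⟨c, hc⟩ := h5.exists_base h3
  have hg : S.Good m Z k := fun n => ⟨h3 n, fun i => (h4 n (.inl i)).trans (hZ i n).2⟩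
  refine ⟨k, y, c, hg, h5, hc, hx, fun n hn => hx' ⟨n, ?_⟩⟩
  have h6 : ∀ i ≤ n, (∃ a ∈ S.N, sec S.N (E n i) a = y i) →
      ∃ a ∈ S.N, sec S.N (E n 0) a = y 0 := by
    intro i
    induction i with
    | zero => exact fun _ h => h
    | succ i ih =>
      rintro hi ⟨a, ha, h⟩
      refine ih (by omega) ⟨k i a, (h3 i).mem_N ha, ?_⟩
      have h7 : k i (E n (i + 1)) = E n i := (h4 i (.inr n)).trans (hE'' n i (by omega))
      rw [← (h5 i).2, ← h, (h3 i).base.sec _ (hE n _) _ (S.trans a ha), h7]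
  refine h6 n le_rfl ?_
  rw [hE']
  exact he' n (y n) ⟨c, ⟨hc.1, hn⟩, k, y, hg, h5, hc, rfl⟩ (h5 n).1

theorem exists_tree (hpair : ∀ a ∈ S.N, ∀ b ∈ S.N, pair a b ∈ S.N)
    (hidx : Function.Injective S.idx)
    (hseq : ∀ a ∈ S.N, ∀ c, (∀ p ∈ c, ∃ i, ∃ x ∈ a, p = pair (S.idx i) x) → c ∈ S.N)
    {c : ZFSet.{u}} (hc : c ⊆ S.Nb) (h : ∀ n, ¬ Sm S.N (S.Vals m Z n c))
    (I : ℕ → ZFSet.{u}) (hI : ∀ t, I t ∈ S.N) :
    ∃ (F : (ℕ → ZFSet.{u}) → ZFSet.{u}) (p : ℕ → ℕ), (∀ t, t ≤ p t) ∧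
      (∀ s, (∀ t, s t ∈ I t) → F s ∈ S.Vals m Z 0 c) ∧
      ∀ s s', (∀ t, s t ∈ I t) → (∀ t, s' t ∈ I t) → ∀ t,
        ((∀ i ≤ t, s i = s' i) ↔ F s ∩ S.W (p t) = F s' ∩ S.W (p t)) := by
  classical
  have h1 := fun n t => exists_level S hidx hseq hpair
    (D := S.Vals m Z n c) (by rintro _ ⟨k, y, -, hy, -, rfl⟩; exact (hy n).1) (h n) (hI t)
  choose d g hg hg' using h1
  choose! kk yy hk hy hb hv using hg
  let pos : ℕ → ℕ := fun t => Nat.rec 0 (fun t n => n + d n t + 1) t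
  have hpos : ∀ t, pos (t + 1) = pos t + d (pos t) t + 1 := fun _ => rfl
  have hmono : StrictMono pos := strictMono_nat_of_lt_succ fun t => by rw [hpos]; omega
  have hex : ∀ i, ∃ t, i < pos (t + 1) := fun i => ⟨i, lt_of_lt_of_le (Nat.lt_succ_self i)
    (hmono.id_le (i + 1))⟩
  let blk : ℕ → ℕ := fun i => Nat.find (hex i)
  have hblk1 : ∀ i t, i < pos (t + 1) → blk i ≤ t := fun i t hi => Nat.find_min' _ hi
  have hblk2 : ∀ i t, pos t ≤ i → i < pos (t + 1) → blk i = t := by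
    intro i t h1 h2
    refine le_antisymm (hblk1 i t h2) (not_lt.1 fun h3 => ?_)
    have h4 : i < pos (blk i + 1) := Nat.find_spec (hex i)
    have h5 : pos (blk i + 1) ≤ pos t := hmono.monotone h3
    omega
  let K : (ℕ → ZFSet.{u}) → ℕ → ZFSet.{u} → ZFSet.{u} := fun s i =>
    kk (pos (blk i)) (blk i) (s (blk i)) i
  have hK : ∀ s, (∀ t, s t ∈ I t) → S.Good m Z (K s) := fun s hs i => hk _ _ _ (hs _) i
  have hK' : ∀ s, (∀ t, s t ∈ I t) → ∀ n, S.Step m n (K s n) := fun s hs n => (hK s hs n).1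
  choose! Y hY hY' using fun s hs => exists_thread (hK' s hs) hc
  have hagree : ∀ s s' : ℕ → ZFSet.{u}, ∀ t, (∀ i < t, s i = s' i) →
      ∀ i < pos t, K s i = K s' i := by
    intro s s' t hs i hi
    cases t with
    | zero => exact absurd hi (Nat.not_lt_zero _)
    | succ t =>
      simp only [K]
      rw [hs _ (Nat.lt_succ_of_le (hblk1 i t hi))]
  have hblock : ∀ s, (∀ t, s t ∈ I t) → ∀ t, Y s (pos t) ∩ S.W (d (pos t) t) =
      g (pos t) t (s t) ∩ S.W (d (pos t) t) := by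
    intro s hs t
    rw [← hv _ _ _ (hs t)]
    refine (hY s hs).agree (hK' s hs) (fun n => (hk _ _ _ (hs t) n).1) (hy _ _ _ (hs t))
      (hY' s hs) (hb _ _ _ (hs t)) _ _ fun i h1 h2 => ?_
    simp only [K]
    rw [hblk2 i t h1 (by rw [hpos]; omega)]
  refine ⟨fun s => Y s 0, fun t => pos t + d (pos t) t, fun t => (hmono.id_le t).trans
    (Nat.le_add_right _ _), fun s hs => ⟨K s, Y s, hK s hs, hY s hs, hY' s hs, rfl⟩,
    fun s s' hs hs' t => ⟨fun H => ?_, fun H => ?_⟩⟩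
  · refine (hY s hs).agree (hK' s hs) (hK' s' hs') (hY s' hs') (hY' s hs) (hY' s' hs') _ 0
      fun i _ hi => hagree s s' (t + 1) (fun i hi => H i (by omega)) i
        (by rw [hpos]; simp only [Nat.zero_add] at hi; omega)
  · intro i
    induction i using Nat.strong_induction_on with
    | _ i ih =>
      intro hi
      have h2 : pos i + d (pos i) i ≤ pos t + d (pos t) t := by
        have := hmono.monotone (Nat.succ_le_succ hi)
        rw [hpos, hpos] at this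
        omega
      have h3 : Y s 0 ∩ S.W (pos i + d (pos i) i) = Y s' 0 ∩ S.W (pos i + d (pos i) i) := by
        rw [← inter_inter_of_subset _ (S.W_mono h2), H, inter_inter_of_subset _ (S.W_mono h2)]
      rw [(hY s hs).agree_iff (hK' s hs) (hK' s' hs') (hY s' hs') _ _
        (hagree s s' i fun i' hi' => ih i' hi' (by omega)), hblock s hs, hblock s' hs'] at h3
      exact hg' _ _ _ (hs i) _ (hs' i) h3

theorem vals_sat (φ : Fml) (hφ : φ.depth ≤ m) (hZ : ∀ i n, Z i n ⊆ S.N) {c w w' : ZFSet.{u}}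
    (h : w ∈ S.Vals m Z 0 c) (h' : w' ∈ S.Vals m Z 0 c)
    (H : Sat (PP S.N) φ (cons w fun i => Z i 0)) : Sat (PP S.N) φ (cons w' fun i => Z i 0) := by
  obtain ⟨k, y, h1, h2, h3, rfl⟩ := h
  obtain ⟨k', y', h1', h2', h3', rfl⟩ := h'
  have h4 : ∀ i, S.Thread k (Z i) := fun i n => ⟨hZ i n, (h1 n).2 i⟩
  have h4' : ∀ i, S.Thread k' (Z i) := fun i n => ⟨hZ i n, (h1' n).2 i⟩
  choose v hv using fun i => (h4 i).exists_base fun n => (h1 n).1
  have e : ∀ y : ℕ → ZFSet.{u}, (fun i => (Nat.casesOn i y Z : ℕ → ZFSet.{u}) 0) =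
      cons (y 0) fun i => Z i 0 := fun y => by funext i; cases i <;> rfl
  have h5 := sat_iff φ m k (fun i => Nat.casesOn i y Z) (cons c v) hφ (fun n => (h1 n).1)
    (fun i => by cases i <;> [exact h2; exact h4 _])
    (fun i => by cases i <;> [exact h3; exact hv _])
  have h6 := sat_iff φ m k' (fun i => Nat.casesOn i y' Z) (cons c v) hφ (fun n => (h1' n).1)
    (fun i => by cases i <;> [exact h2'; exact h4' _])
    (fun i => by cases i <;> [exact h3'; exact hv _])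
  rw [e] at h5 h6
  exact h6.1 (h5.2 H)

end Sys

/-- The combinatorial core: a definable set that is not small contains a perfect tree. -/
theorem core {W idx : ℕ → ZFSet.{u}} {j : ZFSet.{u} → ZFSet.{u}}
    (hN : N.IsTransitive) (hW : ∀ i, W i ∈ N) (hWs : ∀ i, W i ⊆ W (i + 1))
    (hcof : ∀ x ∈ N, ∃ i, x ∈ W i) (h01 : W 0 ∈ W 1) (hW0 : (W 0).IsTransitive)
    (hpow : ∀ a ∈ W 0, powerset a ∈ W 0) {b₀ : ZFSet.{u}} (hb₀ : b₀ ∈ W 0)
    (hidx : ∀ i, idx i ∈ b₀) (hj : Elem N j) (hjW : ∀ i, j (W i) = W (i + 1))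
    (hfix : ∀ a ∈ W 0, j a = a) (hpair : ∀ a ∈ N, ∀ b ∈ N, pair a b ∈ N)
    (hinj : Function.Injective idx) (hsub : ∀ a ∈ N, ∀ b, b ⊆ a → b ∈ N)
    (hseq : ∀ a ∈ N, ∀ c, (∀ p ∈ c, ∃ i, ∃ x ∈ a, p = pair (idx i) x) → c ∈ N)
    {P : (ℕ → ZFSet.{u}) → Prop} (hP : Def N P) {z : ℕ → ZFSet.{u}} (hz : Val N z)
    (hX : ¬ Sm N {y | y ⊆ N ∧ P (cons y z)}) (I : ℕ → ZFSet.{u}) (hI : ∀ t, I t ∈ N) :
    ∃ (F : (ℕ → ZFSet.{u}) → ZFSet.{u}) (p : ℕ → ℕ), (∀ t, t ≤ p t) ∧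
      (∀ s, (∀ t, s t ∈ I t) → F s ⊆ N ∧ P (cons (F s) z)) ∧
      ∀ s s', (∀ t, s t ∈ I t) → (∀ t, s' t ∈ I t) → ∀ t,
        ((∀ i ≤ t, s i = s' i) ↔ F s ∩ W (p t) = F s' ∩ W (p t)) := by
  obtain ⟨φ, hφ⟩ := hP
  have hrf := rf_elem hN hj hpair hsub (fun x hx => by
    obtain ⟨i, hi⟩ := hcof x hx
    exact ⟨W i, hW i, by rw [hjW]; exact hWs i hi⟩) hinj (φ.depth + 1 + 1)
  obtain ⟨S, J, Z, rfl, rfl, rfl, h1, h2, h3⟩ := exists_sys hN hW hWs hcof h01 hW0 hpow hb₀ hidx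
    hrf hjW hfix hz
  obtain ⟨k, y, c, h4, h5, h6, h7, h8⟩ := Sys.exists_good_point hpair hinj
    (fun c hc => hsub _ (hW 0) c hc) h1 h2 (fun y hy => hy.1) hX
  obtain ⟨F, p, h9, h10, h11⟩ := Sys.exists_tree hpair hinj hseq h6.1 h8 I hI
  refine ⟨F, p, h9, fun s hs => ?_, h11⟩
  have h12 : F s ⊆ S.N := by
    obtain ⟨k', y', -, h, -, e⟩ := h10 s hs
    rw [← e]
    exact (h 0).1
  have e : z = fun i => Z i 0 := funext fun i => (h3 i).symm
  refine ⟨h12, (hφ _ (hz.cons h12)).2 ?_⟩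
  have h13 := (hφ _ (hz.cons h7.1)).1 h7.2
  rw [e] at h13 ⊢
  exact Sys.vals_sat φ le_rfl (fun i n => (h2 i n).1) ⟨k, y, h4, h5, h6, rfl⟩ (h10 s hs) h13

end Pool.Agent.I1PSP
end
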