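import Pool.Agent.Lib.MP_9c5ecf_lc.Main

/-!
Sigma-1 truth in the universe is definable over the power set of `N`.
-/

namespace Pool.Agent.I1PSP

open ZFSet

universe u

/-- Truth in the structure coded by `E`; values of variables are given by their extensions. -/
def SatE (N E : ZFSet.{u}) : Fml → (ℕ → ZFSet.{u}) → Prop
  | .mem i j, w => ∃ c, c ∈ w j ∧ sec N E c = w i
  | .eq i j, w => w i = w j
  | .neg φ, w => ¬ SatE N E φ w
  | .and φ ψ, w => SatE N E φ w ∧ SatE N E ψ w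
  | .ex φ, w => ∃ a, a ∈ N ∧ SatE N E φ (cons (sec N E a) w)

/-- The extension representing a subset `A` of `N`. -/
def ext (N E A : ZFSet.{u}) : ZFSet.{u} :=
  ZFSet.sep (fun c => ∃ y, y ∈ A ∧ ∃ q, q ∈ N ∧ q = pair ∅ y ∧ sec N E c = sec N E q) N

/-- Well-founded codes which contain a copy of `N`. -/
def Good (N E : ZFSet.{u}) : Prop :=
  (∀ S, S ⊆ N → ¬ S = ∅ → ∃ a, a ∈ S ∧ ∀ c, c ∈ S → ¬ pair a c ∈ E) ∧
  (∀ a, a ∈ N → ∀ b, b ∈ N → ∀ d, d ∈ N → sec N E a = sec N E b → pair d a ∈ E → pair d b ∈ E) ∧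
  ∀ x, x ∈ N → ∀ q, q ∈ N → q = pair ∅ x → sec N E q = ext N E x

variable {N : ZFSet.{u}} {t s : (ℕ → ZFSet.{u}) → ZFSet.{u}}

theorem DefT.ext (hN : N.IsTransitive) (ht : DefT N t) (hs : DefT N s) :
    DefT N fun v => ext N (t v) (s v) := by
  refine DefT.comp2 (f := I1PSP.ext N) ?_ ht hs
  unfold I1PSP.ext
  repeat' with_reducible first
    | exact DefT.var _ | exact DefT.univ hN | exact DefT.empty hN | apply DefT.sep hN
    | apply Def.bex hN | apply Def.and | apply Def.eqPair hN | apply Def.eq | apply DefT.sec hN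

theorem def_good (hN : N.IsTransitive) : Def N fun v => Good N (v 0) := by
  unfold Good
  repeat' with_reducible first
    | exact DefT.var _ | exact DefT.univ hN | exact DefT.empty hN | apply Def.ball hN
    | apply Def.bex hN | apply Def.all | apply Def.and | apply Def.not | apply Def.imp
    | apply Def.eqPair hN | apply Def.eq | apply Def.pairMem hN | apply DefT.sec hN
    | apply DefT.ext hN

theorem def_satE (hN : N.IsTransitive) (φ : Fml) :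
    ∀ (t : (ℕ → ZFSet.{u}) → ZFSet.{u}) (s : ℕ → (ℕ → ZFSet.{u}) → ZFSet.{u}), DefT N t →
      (∀ i, DefT N (s i)) → Def N fun v => SatE N (t v) φ fun i => s i v := by
  induction φ with
  | mem a b =>
    intro t s ht hs
    exact Def.bex hN (R := fun c v => sec N (t v) c = s a v) (hs b)
      (Def.eq (DefT.sec hN ht.shift (DefT.var 0)) (hs a).shift)
  | eq a b => intro t s _ hs; exact Def.eq (hs a) (hs b)
  | neg φ ih => intro t s ht hs; exact (ih t s ht hs).not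
  | and φ ψ ih1 ih2 => intro t s ht hs; exact (ih1 t s ht hs).and (ih2 t s ht hs)
  | ex φ ih =>
    intro t s ht hs
    refine Def.bex hN (R := fun a v => SatE N (t v) φ (cons (sec N (t v) a) fun i => s i v))
      (DefT.univ hN) ?_
    refine ih (fun w => t fun i => w (i + 1))
      (fun k w => cons (sec N (t fun i => w (i + 1)) (w 0)) (fun k => s k fun i => w (i + 1)) k)
      ht.shift fun k => ?_
    cases k with
    | zero => exact DefT.sec hN ht.shift (DefT.var 0)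
    | succ k => exact (hs k).shift

/-- The preimage of `A` under a labelling. -/
def pre (N : ZFSet.{u}) (ρ : ZFSet.{u} → ZFSet.{u}) (A : ZFSet.{u}) : ZFSet.{u} :=
  ZFSet.sep (fun c => ρ c ∈ A) N

variable {E : ZFSet.{u}} {ρ : ZFSet.{u} → ZFSet.{u}}

theorem satE_iff (hE : ∀ a ∈ N, sec N E a = pre N ρ (ρ a)) {U : Set ZFSet.{u}}
    (h1 : ∀ a ∈ N, ρ a ∈ U) (h2 : ∀ x ∈ U, ∀ y ∈ U, pre N ρ x = pre N ρ y → x = y)
    (h3 : ∀ x ∈ U, ∀ y ∈ U, x ∈ y → ∃ a ∈ N, ρ a = x) (φ : Fml) :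
    ∀ w : ℕ → ZFSet.{u}, (∀ i, w i ∈ U) →
      (SatE N E φ (fun i => pre N ρ (w i)) ↔ Sat {x | ∃ a ∈ N, ρ a = x} φ w) := by
  induction φ with
  | mem a b =>
    intro w hw
    constructor
    · rintro ⟨c, hc, h⟩
      obtain ⟨hc1, hc2⟩ := mem_sep.1 hc
      rw [hE c hc1] at h
      rwa [h2 _ (h1 c hc1) _ (hw a) h] at hc2
    · intro h
      obtain ⟨c, hc, e⟩ := h3 _ (hw a) _ (hw b) h
      exact ⟨c, mem_sep.2 ⟨hc, e ▸ h⟩, by rw [hE c hc, e]⟩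
  | eq a b => intro w hw; exact ⟨h2 _ (hw a) _ (hw b), congrArg _⟩
  | neg φ ih => intro w hw; exact not_congr (ih w hw)
  | and φ ψ ih1 ih2 => intro w hw; exact and_congr (ih1 w hw) (ih2 w hw)
  | ex φ ih =>
    intro w hw
    have h4 : ∀ a ∈ N, SatE N E φ (cons (sec N E a) fun i => pre N ρ (w i)) ↔
        Sat {x | ∃ a ∈ N, ρ a = x} φ (cons (ρ a) w) := by
      intro a ha
      rw [← ih _ fun i => by cases i; exacts [h1 a ha, hw _], hE a ha]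
      congr! 2 with i
      cases i <;> rfl
    constructor
    · rintro ⟨a, ha, h⟩
      exact ⟨ρ a, ⟨a, ha, rfl⟩, (h4 a ha).1 h⟩
    · rintro ⟨_, ⟨a, ha, rfl⟩, h⟩
      exact ⟨a, ha, (h4 a ha).2 h⟩

theorem ext_eq_pre (hE : ∀ a ∈ N, sec N E a = pre N ρ (ρ a))
    (h2 : ∀ a ∈ N, ∀ b ∈ N, pre N ρ (ρ a) = pre N ρ (ρ b) → ρ a = ρ b) {A : ZFSet.{u}}
    (h3 : ∀ y ∈ A, pair ∅ y ∈ N ∧ ρ (pair ∅ y) = y) : ext N E A = pre N ρ A := by
  ext c
  rw [I1PSP.ext, pre, mem_sep, mem_sep]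
  refine and_congr_right fun hc => ⟨?_, fun h => ?_⟩
  · rintro ⟨y, hy, q, hq, rfl, h⟩
    rw [hE c hc, hE _ hq] at h
    rwa [h2 c hc _ hq h, (h3 y hy).2]
  · exact ⟨_, h, _, (h3 _ h).1, rfl, by rw [hE c hc, hE _ (h3 _ h).1, (h3 _ h).2]⟩

theorem sat_delta0 {M : Set ZFSet.{u}} (hM : ∀ x ∈ M, ∀ y ∈ x, y ∈ M) {φ : Fml}
    (hφ : IsDelta0 φ) : ∀ w : ℕ → ZFSet.{u}, (∀ i, ∀ y ∈ w i, y ∈ M) →
      (Sat M φ w ↔ Sat Set.univ φ w) := by
  induction hφ with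
  | mem a b => intro _ _; rfl
  | eq a b => intro _ _; rfl
  | neg _ ih => intro w hw; exact not_congr (ih w hw)
  | and _ _ ih1 ih2 => intro w hw; exact and_congr (ih1 w hw) (ih2 w hw)
  | bex i _ ih =>
    intro w hw
    have h : ∀ x ∈ w i, ∀ k, ∀ y ∈ cons x w k, y ∈ M := fun x hx k => by
      cases k; exacts [hM x (hw i x hx), hw _]
    constructor
    · rintro ⟨x, -, h1, h2⟩
      exact ⟨x, trivial, h1, (ih _ (h x h1)).1 h2⟩
    · rintro ⟨x, -, h1, h2⟩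
      exact ⟨x, hw i x h1, h1, (ih _ (h x h1)).2 h2⟩

theorem sat_sigma1 {M : Set ZFSet.{u}} (hM : ∀ x ∈ M, ∀ y ∈ x, y ∈ M) {φ : Fml}
    (hφ : IsSigma1 φ) : ∀ w : ℕ → ZFSet.{u}, (∀ i, ∀ y ∈ w i, y ∈ M) →
      Sat M φ w → Sat Set.univ φ w := by
  induction hφ with
  | delta0 h => intro w hw; exact (sat_delta0 hM h w hw).1
  | ex _ ih =>
    rintro w hw ⟨x, hx, h⟩
    exact ⟨x, trivial, ih _ (fun k => by cases k; exacts [hM x hx, hw _]) h⟩

theorem Good.exists_collapse (h : Good N E) :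
    ∃ π : ZFSet.{u} → ZFSet.{u}, ∀ a y, y ∈ π a ↔ ∃ c ∈ sec N E a, π c = y := by
  have wf : WellFounded fun c a : ZFSet.{u} => c ∈ sec N E a := by
    refine WellFounded.wellFounded_iff_has_min.2 fun S ⟨a, ha⟩ => ?_
    by_cases h0 : ZFSet.sep (fun x => x ∈ S) N = ∅
    · refine ⟨a, ha, fun c hc h1 => ?_⟩
      exact notMem_empty c (h0 ▸ mem_sep.2 ⟨(mem_sec.1 h1).1, hc⟩)
    · obtain ⟨b, hb, h1⟩ := h.1 _ sep_subset h0
      exact ⟨b, (mem_sep.1 hb).2, fun c hc h2 =>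
        h1 c (mem_sep.2 ⟨(mem_sec.1 h2).1, hc⟩) (mem_sec.1 h2).2⟩
  refine ⟨wf.fix fun a f => ZFSet.range fun c : sec N E a => f c.1 c.2, fun a y => ?_⟩
  rw [WellFounded.fix_eq, mem_range]
  exact ⟨fun ⟨c, e⟩ => ⟨c.1, c.2, e⟩, fun ⟨c, hc, e⟩ => ⟨⟨c, hc⟩, e⟩⟩

theorem Good.sound (hN : N.IsTransitive) (h0 : ∀ x ∈ N, pair ∅ x ∈ N) (h : Good N E) {φ : Fml}
    (hφ : IsSigma1 φ) {v : ℕ → ZFSet.{u}} (hv : Val N v)
    (hs : SatE N E φ fun i => ext N E (v i)) : Sat Set.univ φ v := by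
  obtain ⟨π, hπ⟩ := h.exists_collapse
  have h1 : ∀ a b, sec N E a = sec N E b → π a = π b := fun a b e => by
    ext y; rw [hπ, hπ, e]
  have h2 : ∀ x : ZFSet.{u}, ∀ a ∈ N, π a = x → sec N E a = pre N π x := by
    intro x
    induction x using ZFSet.inductionOn with
    | _ x ih =>
      rintro a ha rfl
      ext c
      rw [pre, mem_sep]
      refine ⟨fun hc => ⟨(mem_sec.1 hc).1, (hπ _ _).2 ⟨c, hc, rfl⟩⟩, fun ⟨hc, h3⟩ => ?_⟩
      obtain ⟨c', h4, h5⟩ := (hπ _ _).1 h3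
      obtain ⟨h6, h7⟩ := mem_sec.1 h4
      exact mem_sec.2 ⟨hc, h.2.1 c' h6 c hc a ha
        ((ih _ h3 c' h6 h5).trans (ih _ h3 c hc rfl).symm) h7⟩
  have hE : ∀ a ∈ N, sec N E a = pre N π (π a) := fun a ha => h2 _ a ha rfl
  have h3 : ∀ a ∈ N, ∀ b ∈ N, pre N π (π a) = pre N π (π b) → π a = π b :=
    fun a ha b hb e => h1 a b (by rw [hE a ha, hE b hb, e])
  have hM : ∀ a, ∀ y ∈ π a, ∃ c ∈ N, π c = y := fun a y hy => by
    obtain ⟨c, hc, e⟩ := (hπ a y).1 hy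
    exact ⟨c, (mem_sec.1 hc).1, e⟩
  have h4 : ∀ x y : ZFSet.{u}, (∀ z ∈ x, ∃ c ∈ N, π c = z) → pre N π x = pre N π y → x ⊆ y := by
    intro x y hx e z hz
    obtain ⟨c, hc, rfl⟩ := hx z hz
    exact (mem_sep.1 (show c ∈ pre N π y from e ▸ mem_sep.2 ⟨hc, hz⟩)).2
  have h5 : ∀ x : ZFSet.{u}, x ∈ N → π (pair ∅ x) = x := by
    intro x
    induction x using ZFSet.inductionOn with
    | _ x ih =>
      intro hx
      have h6 : ∀ y ∈ x, pair ∅ y ∈ N ∧ π (pair ∅ y) = y := fun y hy =>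
        ⟨h0 y (hN x hx hy), ih y hy (hN x hx hy)⟩
      have h7 := h.2.2 x hx _ (h0 x hx) rfl
      rw [ext_eq_pre hE h3 h6, hE _ (h0 x hx)] at h7
      exact subset_antisymm (h4 _ _ (hM _) h7)
        (h4 _ _ (fun y hy => ⟨_, (h6 y hy).1, (h6 y hy).2⟩) h7.symm)
  have h6 : ∀ i, ∀ y ∈ v i, ∃ c ∈ N, π c = y := fun i y hy =>
    ⟨_, h0 y (hv i hy), h5 y (hv i hy)⟩
  simp only [fun i => ext_eq_pre hE h3 (A := v i) fun y hy =>
    ⟨h0 y (hv i hy), h5 y (hv i hy)⟩] at hs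
  rw [satE_iff hE (U := {x | ∀ z ∈ x, ∃ c ∈ N, π c = z}) (fun a _ => hM a)
    (fun x hx y hy e => subset_antisymm (h4 _ _ hx e) (h4 _ _ hy e.symm))
    (fun x _ y hy h => hy x h) φ v h6] at hs
  refine sat_sigma1 ?_ hφ v h6 hs
  rintro _ ⟨a, -, rfl⟩
  exact hM a

/-- Skolem terms. -/
inductive Tm : Type (u + 1)
  | base (x : ZFSet.{u}) : Tm
  | cons (s t : Tm) : Tm
  | sk (φ : Fml) (t : Tm) : Tm

/-- Codes of formulas. -/
noncomputable def Fml.code : Fml → ZFSet.{u}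
  | .mem i j => pair (ix 0) (pair (ix i) (ix j))
  | .eq i j => pair (ix 1) (pair (ix i) (ix j))
  | .neg φ => pair (ix 2) φ.code
  | .and φ ψ => pair (ix 3) (pair φ.code ψ.code)
  | .ex φ => pair (ix 4) φ.code

theorem Fml.code_inj (φ : Fml) : ∀ ψ : Fml, φ.code.{u} = ψ.code → φ = ψ := by
  induction φ <;> intro ψ <;> cases ψ <;>
    simp_all [Fml.code, pair_inj, ix_injective.eq_iff] <;> tauto

/-- Codes of terms. -/
noncomputable def Tm.code : Tm.{u} → ZFSet.{u}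
  | .base x => pair (ix 0) x
  | .cons s t => pair (ix 1) (pair s.code t.code)
  | .sk φ t => pair (ix 2) (pair φ.code t.code)

theorem Tm.code_inj (s : Tm.{u}) : ∀ t : Tm.{u}, s.code = t.code → s = t := by
  have := Fml.code_inj.{u}
  induction s <;> intro t <;> cases t <;>
    simp_all [Tm.code, pair_inj, ix_injective.eq_iff] <;> tauto

/-- Values of terms. -/
noncomputable def Tm.ev (v : ℕ → ZFSet.{u}) : Tm.{u} → ZFSet.{u} × (ℕ → ZFSet.{u})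
  | .base x => (x, v)
  | .cons s t => (∅, I1PSP.cons (s.ev v).1 (t.ev v).2)
  | .sk φ t => (Classical.epsilon fun x => Sat Set.univ φ (I1PSP.cons x (t.ev v).2), v)

theorem exists_good (hN : N.IsTransitive) (hpair : ∀ a ∈ N, ∀ b ∈ N, pair a b ∈ N)
    (hix : ∀ n, ix n ∈ N) (v : ℕ → ZFSet.{u}) (hv : Val N v) : ∃ E, E ⊆ N ∧ Good N E ∧
      ∀ φ, Sat Set.univ φ v → SatE N E φ fun i => ext N E (v i) := by
  classical
  let ρ : ZFSet.{u} → ZFSet.{u} := fun a =>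
    if h : ∃ t : Tm.{u}, t.code = a then (h.choose.ev v).1 else ∅
  have hρ : ∀ t : Tm.{u}, ρ t.code = (t.ev v).1 := fun t => by
    have h : ∃ s : Tm.{u}, s.code = t.code := ⟨t, rfl⟩
    simp only [ρ, dif_pos h]
    rw [Tm.code_inj _ _ h.choose_spec]
  have h0 : (∅ : ZFSet.{u}) ∈ N := ix_zero ▸ hix 0
  have hb0 : (Tm.base ∅).code ∈ N := hpair _ (hix 0) _ h0
  have hρ' : ∀ a ∈ N, ∃ t : Tm.{u}, t.code ∈ N ∧ (t.ev v).1 = ρ a := fun a ha => by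
    by_cases h : ∃ t : Tm.{u}, t.code = a
    · obtain ⟨t, rfl⟩ := h
      exact ⟨t, ha, (hρ t).symm⟩
    · exact ⟨.base ∅, hb0, by simp only [ρ, dif_neg h]; rfl⟩
  have hF : ∀ φ : Fml, φ.code ∈ N := fun φ => by
    induction φ <;> simp only [Fml.code] <;>
      repeat' first | assumption | exact hix _ | apply hpair
  have hc : ∀ s t : Tm.{u}, s.code ∈ N → t.code ∈ N → (s.cons t).code ∈ N :=
    fun s t hs ht => hpair _ (hix 1) _ (hpair _ hs _ ht)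
  have hsk : ∀ (φ : Fml) (t : Tm.{u}), t.code ∈ N → (Tm.sk φ t).code ∈ N :=
    fun φ t ht => hpair _ (hix 2) _ (hpair _ (hF φ) _ ht)
  have hTV : ∀ (φ : Fml) (t : Tm.{u}), t.code ∈ N →
      (Sat {x | ∃ a ∈ N, ρ a = x} φ (t.ev v).2 ↔ Sat Set.univ φ (t.ev v).2) := by
    intro φ
    induction φ with
    | mem a b => intro _ _; rfl
    | eq a b => intro _ _; rfl
    | neg φ ih => intro t ht; exact not_congr (ih t ht)
    | and φ ψ ih1 ih2 => intro t ht; exact and_congr (ih1 t ht) (ih2 t ht)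
    | ex φ ih =>
      intro t ht
      constructor
      · rintro ⟨_, ⟨a, ha, rfl⟩, h⟩
        obtain ⟨s, hs, e⟩ := hρ' a ha
        rw [← e] at h
        exact ⟨_, trivial, (ih _ (hc s t hs ht)).1 h⟩
      · rintro ⟨x, -, h⟩
        refine ⟨_, ⟨_, hsk φ t ht, hρ _⟩, (ih _ (hc _ t (hsk φ t ht) ht)).2 ?_⟩
        exact Classical.epsilon_spec
          (p := fun x => Sat Set.univ φ (I1PSP.cons x (t.ev v).2)) ⟨x, h⟩
  have hsub : ∀ a ∈ N, ∀ b ∈ N, pre N ρ (ρ a) = pre N ρ (ρ b) → ρ a ⊆ ρ b := by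
    intro a ha b hb e x hx
    by_contra hx'
    obtain ⟨s, hs, e1⟩ := hρ' a ha
    obtain ⟨t, ht, e2⟩ := hρ' b hb
    obtain ⟨_, ⟨c, hc', rfl⟩, h1, h2⟩ := (hTV (.ex (.and (.mem 0 1) (.neg (.mem 0 2)))) _
      (hc s _ hs (hc t _ ht hb0))).2
        ⟨x, trivial, show x ∈ (s.ev v).1 from e1 ▸ hx, show x ∉ (t.ev v).1 from e2 ▸ hx'⟩
    refine h2 ?_
    change ρ c ∈ (s.ev v).1 at h1
    change ρ c ∈ (t.ev v).1
    rw [e1] at h1
    rw [e2]
    exact (mem_sep.1 (show c ∈ pre N ρ (ρ b) from e ▸ mem_sep.2 ⟨hc', h1⟩)).2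
  have hext : ∀ a ∈ N, ∀ b ∈ N, pre N ρ (ρ a) = pre N ρ (ρ b) → ρ a = ρ b :=
    fun a ha b hb e => subset_antisymm (hsub a ha b hb e) (hsub b hb a ha e.symm)
  have hbase : ∀ y ∈ N, pair ∅ y ∈ N ∧ ρ (pair ∅ y) = y := fun y hy =>
    ⟨hpair _ h0 _ hy, by rw [← ix_zero]; exact hρ (.base y)⟩
  have hv' : ∀ i, ∃ a ∈ N, ρ a = v i := fun i =>
    ⟨_, hsk (.eq 0 (i + 1)) _ hb0, (hρ _).trans
      (Classical.epsilon_spec (p := fun x => x = v i) ⟨v i, rfl⟩)⟩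
  let E : ZFSet.{u} := ZFSet.sep (fun p => ρ (snd p) ∈ ρ (fst p)) N
  have hE0 : ∀ a ∈ N, ∀ c ∈ N, pair a c ∈ E ↔ ρ c ∈ ρ a := fun a ha c hc => by
    simp only [E, mem_sep, fst_pair, snd_pair, hpair a ha c hc, true_and]
  have hE : ∀ a ∈ N, sec N E a = pre N ρ (ρ a) := fun a ha => by
    ext c
    rw [pre, mem_sep, mem_sec]
    exact and_congr_right fun hc => hE0 a ha c hc
  refine ⟨E, sep_subset, ⟨fun S hS hS' => ?_, fun a ha b hb d hd e h => ?_, ?_⟩, fun φ h => ?_⟩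
  · obtain ⟨a, ha⟩ : ∃ a, a ∈ S := by
      by_contra hc
      exact hS' (eq_empty _ |>.2 fun a ha => hc ⟨a, ha⟩)
    obtain ⟨_, ⟨b, hb, rfl⟩, h⟩ := mem_wf.has_min {x | ∃ b ∈ S, ρ b = x} ⟨_, a, ha, rfl⟩
    exact ⟨b, hb, fun c hc h1 => h _ ⟨c, hc, rfl⟩ ((hE0 b (hS hb) c (hS hc)).1 h1)⟩
  · rw [hE a ha, hE b hb] at e
    rw [hE0 d hd b hb, ← hext a ha b hb e, ← hE0 d hd a ha]
    exact h
  · rintro x hx q hq rfl
    rw [hE _ hq, (hbase x hx).2, ext_eq_pre hE hext fun y hy => hbase y (hN x hx hy)]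
  · simp only [fun i => ext_eq_pre hE hext (A := v i) fun y hy => hbase y (hv i hy)]
    rw [satE_iff hE (U := {x | ∃ a ∈ N, ρ a = x}) (fun a ha => ⟨a, ha, rfl⟩)
      (by rintro _ ⟨a, ha, rfl⟩ _ ⟨b, hb, rfl⟩; exact hext a ha b hb) (fun x hx _ _ _ => hx) φ v
      hv']
    exact (hTV φ _ hb0).2 h

theorem def_sigma1 (hN : N.IsTransitive) (hpair : ∀ a ∈ N, ∀ b ∈ N, pair a b ∈ N)
    (hix : ∀ n, ix n ∈ N) {φ : Fml} (hφ : IsSigma1 φ) : Def N fun v => Sat Set.univ φ v := by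
  refine (Def.ex (R := fun E v => Good N E ∧ SatE N E φ fun i => ext N E (v i))
    ((def_good hN).and (def_satE hN φ _ _ (DefT.var 0) fun i =>
      DefT.ext hN (DefT.var 0) (DefT.var (i + 1))))).congr fun v hv => ⟨fun h => ?_, ?_⟩
  · obtain ⟨E, h1, h2, h3⟩ := exists_good hN hpair hix v hv
    exact ⟨E, h1, h2, h3 φ h⟩
  · rintro ⟨E, -, h2, h3⟩
    exact h2.sound hN (fun x hx => hpair _ (ix_zero ▸ hix 0) x hx) hφ hv h3

theorem psp1 {l : Ordinal.{u}} {j : ZFSet.{u} → ZFSet.{u}} (hI : IsI1 l j) {φ : Fml}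
    (hφ : IsSigma1 φ) {z : ℕ → ZFSet.{u}} (hz : ∀ i, z i ∈ V_ (l + 1)) {X : Set ZFSet.{u}}
    (hX : ∀ y, y ∈ X ↔ y ⊆ l.toZFSet ∧ Sat Set.univ φ (cons y z))
    (hcard : Cardinal.mk (Set.Iio l) < Cardinal.mk X) : HasPerfectEmbedding l X :=
  psp hI (def_sigma1 (isTransitive_vonNeumann l) (fun _ ha _ hb => pair_mem_V hI.limit.2 ha hb)
    (ix_mem hI.limit.1.le) hφ) (fun i => mem_V_succ.1 (hz i)) hX hcard

end Pool.Agent.I1PSP
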